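import Pool.Agent.H.MP_a22eb7_al.helper16.RankLin
import Pool.Agent.H.MP_a22eb7_al.helper44.Sofic

set_option autoImplicit false

/-! Sofic approximations and the matrices they define. -/

namespace Pool.Agent.H.MP_a22eb7_al

open MonoidAlgebra

/-- A sofic approximation of `G` on `N` points which is multiplicative and free for the elements of
`F` outside the set `T` of bad points. -/
structure Approx (G : Type*) [Group G] (F : Finset G) (δ : ℝ) where
  /-- number of points -/
  N : ℕ
  pos : 0 < N
  /-- the permutations -/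
  σ : G → Equiv.Perm (Fin N)
  /-- the bad points -/
  T : Finset (Fin N)
  cardT : (T.card : ℝ) ≤ δ * N
  mul : ∀ y, y ∉ T → ∀ g ∈ F, ∀ h ∈ F, σ (g * h) y = σ g (σ h y)
  free : ∀ y, y ∉ T → ∀ g ∈ F, g ≠ 1 → σ g y ≠ y

theorem exists_approx {G : Type*} [Group G] (hG : IsSofic G) (F : Finset G) {δ : ℝ} (hδ : 0 < δ) :
    Nonempty (Approx G F δ) := by
  classical
  have hM : (0 : ℝ) < F.card ^ 2 + F.card + 1 := by positivity
  obtain ⟨N, σ, hN, hmul, hfree⟩ := hG F (δ / (F.card ^ 2 + F.card + 1)) (by positivity)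
  have hNr : (0 : ℝ) < N := by exact_mod_cast hN
  obtain ⟨T, hT⟩ : ∃ T : Finset (Fin N), T = Finset.univ.filter fun y =>
      (∃ g ∈ F, ∃ h ∈ F, σ (g * h) y ≠ σ g (σ h y)) ∨ ∃ g ∈ F, g ≠ 1 ∧ σ g y = y := ⟨_, rfl⟩
  obtain ⟨e, he⟩ : ∃ e, e = δ / (F.card ^ 2 + F.card + 1) * N := ⟨_, rfl⟩
  have he0 : 0 ≤ e := by rw [he]; positivity
  have hTc : (T.card : ℝ) ≤ (F.card ^ 2 + F.card) * e := by
    have h1 : T ⊆ ((F ×ˢ F).biUnion fun p =>
          Finset.univ.filter fun x => σ (p.1 * p.2) x ≠ σ p.1 (σ p.2 x)) ∪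
        ((F.filter fun g => g ≠ 1).biUnion fun g => Finset.univ.filter fun x => σ g x = x) := by
      intro y hy
      rw [hT, Finset.mem_filter] at hy
      rw [Finset.mem_union]
      rcases hy.2 with ⟨g, hg, h, hh, hne⟩ | ⟨g, hg, hg1, hgy⟩
      · left
        rw [Finset.mem_biUnion]
        exact ⟨(g, h), Finset.mem_product.mpr ⟨hg, hh⟩, by simpa using hne⟩
      · right
        rw [Finset.mem_biUnion]
        exact ⟨g, Finset.mem_filter.mpr ⟨hg, hg1⟩, by simpa using hgy⟩
    have h2 : (((F ×ˢ F).biUnion fun p =>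
        Finset.univ.filter fun x => σ (p.1 * p.2) x ≠ σ p.1 (σ p.2 x)).card : ℝ)
        ≤ F.card ^ 2 * e := by
      calc _ ≤ ((∑ p ∈ F ×ˢ F,
            (Finset.univ.filter fun x => σ (p.1 * p.2) x ≠ σ p.1 (σ p.2 x)).card : ℕ) : ℝ) := by
            exact_mod_cast Finset.card_biUnion_le
        _ = ∑ p ∈ F ×ˢ F,
            ((Finset.univ.filter fun x => σ (p.1 * p.2) x ≠ σ p.1 (σ p.2 x)).card : ℝ) := by
            push_cast; rfl
        _ ≤ ∑ _p ∈ F ×ˢ F, e := by
            apply Finset.sum_le_sum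
            intro p hp
            rw [he]
            exact hmul p.1 (Finset.mem_product.mp hp).1 p.2 (Finset.mem_product.mp hp).2
        _ = F.card ^ 2 * e := by
            rw [Finset.sum_const, Finset.card_product, nsmul_eq_mul]
            push_cast; ring
    have h3 : (((F.filter fun g => g ≠ 1).biUnion
        fun g => Finset.univ.filter fun x => σ g x = x).card : ℝ) ≤ F.card * e := by
      calc _ ≤ ((∑ g ∈ F.filter fun g => g ≠ 1,
            (Finset.univ.filter fun x => σ g x = x).card : ℕ) : ℝ) := by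
            exact_mod_cast Finset.card_biUnion_le
        _ = ∑ g ∈ F.filter fun g => g ≠ 1, ((Finset.univ.filter fun x => σ g x = x).card : ℝ) := by
            push_cast; rfl
        _ ≤ ∑ _g ∈ F.filter fun g => g ≠ 1, e := by
            apply Finset.sum_le_sum
            intro g hg
            rw [he]
            exact hfree g (Finset.mem_filter.mp hg).1 (Finset.mem_filter.mp hg).2
        _ = (F.filter fun g => g ≠ 1).card * e := by
            rw [Finset.sum_const, nsmul_eq_mul]
        _ ≤ F.card * e := by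
            apply mul_le_mul_of_nonneg_right _ he0
            exact_mod_cast Finset.card_filter_le _ _
    have h4 := (Finset.card_le_card h1).trans (Finset.card_union_le _ _)
    have h5 : (T.card : ℝ) ≤ F.card ^ 2 * e + F.card * e := by
      refine le_trans ?_ (add_le_add h2 h3)
      exact_mod_cast h4
    linarith
  refine ⟨⟨N, hN, σ, T, ?_, ?_, ?_⟩⟩
  · refine hTc.trans ?_
    have h6 : (F.card ^ 2 + F.card) * e ≤ (F.card ^ 2 + F.card + 1) * e := by
      nlinarith
    refine h6.trans (le_of_eq ?_)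
    rw [he]
    field_simp
  · intro y hy g hg h hh
    by_contra hne
    exact hy (by
      rw [hT, Finset.mem_filter]
      exact ⟨Finset.mem_univ _, Or.inl ⟨g, hg, h, hh, hne⟩⟩)
  · intro y hy g hg hg1 hne
    exact hy (by
      rw [hT, Finset.mem_filter]
      exact ⟨Finset.mem_univ _, Or.inr ⟨g, hg, hg1, hne⟩⟩)

/-- The additive functional of `MonoidAlgebra K G` with value `c` at `single g c` when `σ g y = x`,
and `0` otherwise. -/
noncomputable def sphi {G K : Type*} [Semiring K] {N : ℕ} (σ : G → Equiv.Perm (Fin N))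
    (x y : Fin N) : MonoidAlgebra K G →+ K where
  toFun a := ∑ g ∈ a.coeff.support, if σ g y = x then a.coeff g else 0
  map_zero' := by simp
  map_add' a b := by
    have h : ∀ c : MonoidAlgebra K G, (∑ g ∈ c.coeff.support, if σ g y = x then c.coeff g else 0)
        = c.coeff.sum fun g r => if σ g y = x then r else 0 := fun c => rfl
    rw [h, h, h, MonoidAlgebra.coeff_add]
    classical
    apply Finsupp.sum_add_index
    · intro g _; simp
    · intro g _ r s; split_ifs <;> simp

theorem sphi_single {G K : Type*} [Semiring K] {N : ℕ} (σ : G → Equiv.Perm (Fin N))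
    (x y : Fin N) (g : G) (c : K) :
    sphi σ x y (MonoidAlgebra.single g c) = if σ g y = x then c else 0 := by
  have h : sphi σ x y (MonoidAlgebra.single g c)
      = (MonoidAlgebra.single g c).coeff.sum fun g r => if σ g y = x then r else 0 := rfl
  rw [h, MonoidAlgebra.coeff_single, Finsupp.sum_single_index]
  simp

theorem sphi_apply {G K : Type*} [Semiring K] {N : ℕ} (σ : G → Equiv.Perm (Fin N))
    (x y : Fin N) (a : MonoidAlgebra K G) :
    sphi σ x y a = ∑ g ∈ a.coeff.support, if σ g y = x then a.coeff g else 0 := rfl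

theorem sphi_mul {G K : Type*} [Group G] [Semiring K] {N : ℕ} (σ : G → Equiv.Perm (Fin N))
    (x y : Fin N) (a b : MonoidAlgebra K G)
    (h : ∀ g ∈ a.coeff.support, ∀ k ∈ b.coeff.support, σ (g * k) y = σ g (σ k y)) :
    sphi σ x y (a * b) = ∑ z, sphi σ x z a * sphi σ z y b := by
  rw [MonoidAlgebra.mul_def]
  simp only [Finsupp.sum, map_sum, sphi_single]
  simp only [sphi_apply, Finset.sum_mul_sum]
  symm
  rw [Finset.sum_comm]
  apply Finset.sum_congr rfl
  intro g hg
  rw [Finset.sum_comm]
  apply Finset.sum_congr rfl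
  intro k hk
  rw [h g hg k hk, Finset.sum_eq_single (σ k y)]
  · simp
  · intro z _ hz
    rw [if_neg (Ne.symm hz), mul_zero]
  · simp

namespace Approx

variable {G : Type*} [Group G] {K : Type*} [Field K] {F : Finset G} {δ : ℝ} (a : Approx G F δ)
  {ι κ μ : Type*} [Fintype ι] [Fintype κ] [Fintype μ]

/-- The matrix over `K` defined by a matrix over the group algebra. -/
noncomputable def rep (X : Matrix ι κ (MonoidAlgebra K G)) :
    Matrix (ι × Fin a.N) (κ × Fin a.N) K :=
  fun p q => sphi a.σ p.2 q.2 (X p.1 q.1)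

/-- All entries are supported in `F`. -/
def Supp (F : Finset G) (X : Matrix ι κ (MonoidAlgebra K G)) : Prop :=
  ∀ i j g, (X i j).coeff g ≠ 0 → g ∈ F

omit [Fintype ι] [Fintype κ] [Group G] in
theorem Supp.mono {F F' : Finset G} (h : F ⊆ F') {X : Matrix ι κ (MonoidAlgebra K G)}
    (hX : Supp F X) : Supp F' X := fun i j g hg => h (hX i j g hg)

omit [Group G] in
theorem exists_supp [DecidableEq G] (X : Matrix ι κ (MonoidAlgebra K G)) : ∃ F, Supp F X := by
  refine ⟨Finset.univ.biUnion fun i => Finset.univ.biUnion fun j => (X i j).coeff.support, ?_⟩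
  intro i j g hg
  simp only [Finset.mem_biUnion, Finset.mem_univ, true_and]
  exact ⟨i, j, Finsupp.mem_support_iff.2 hg⟩

omit [Fintype ι] [Fintype μ] in
theorem rep_mul_apply {X : Matrix ι κ (MonoidAlgebra K G)} {Y : Matrix κ μ (MonoidAlgebra K G)}
    (hX : Supp F X) (hY : Supp F Y) (p : ι × Fin a.N) (q : μ × Fin a.N) (hq : q.2 ∉ a.T) :
    (a.rep X * a.rep Y) p q = a.rep (X * Y) p q := by
  simp only [rep]
  rw [Matrix.mul_apply, Fintype.sum_prod_type, Matrix.mul_apply, map_sum]
  apply Finset.sum_congr rfl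
  intro k _
  rw [sphi_mul a.σ p.2 q.2 (X p.1 k) (Y k q.1)
    (fun g hg h hh => a.mul q.2 hq g (hX _ _ g (Finsupp.mem_support_iff.1 hg)) h
      (hY _ _ h (Finsupp.mem_support_iff.1 hh)))]
  rfl

/-- `rank rep (X Y) ≤ rank (rep X rep Y) + |μ| |T|` -/
theorem rank_rep_mul_le {X : Matrix ι κ (MonoidAlgebra K G)} {Y : Matrix κ μ (MonoidAlgebra K G)}
    (hX : Supp F X) (hY : Supp F Y) :
    (a.rep (X * Y)).rank ≤ (a.rep X * a.rep Y).rank + Fintype.card μ * a.T.card := by
  classical
  have h := RankLin.rank_le_of_cols (a.rep (X * Y)) (a.rep X * a.rep Y)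
    (Finset.univ ×ˢ a.T : Finset (μ × Fin a.N)) (by
      intro q hq p
      have hq2 : q.2 ∉ a.T := fun h => hq (Finset.mem_product.mpr ⟨Finset.mem_univ _, h⟩)
      exact (a.rep_mul_apply hX hY p q hq2).symm)
  rwa [Finset.card_product, Finset.card_univ] at h

/-- The inequality which shows that the sofic rank is well defined on `K₀`. -/
theorem rank_rep_le {E : Matrix ι ι (MonoidAlgebra K G)} {E' : Matrix κ κ (MonoidAlgebra K G)}
    (hE : E * E = E) {X : Matrix ι κ (MonoidAlgebra K G)} {Y : Matrix κ ι (MonoidAlgebra K G)}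
    (h1 : X * Y = E) (h2 : Y * X = E') (hX : Supp F X) (hY : Supp F Y) (hE' : Supp F E')
    (hXE' : Supp F (X * E')) :
    (a.rep E).rank ≤ (a.rep E').rank + (Fintype.card ι + Fintype.card κ) * a.T.card := by
  classical
  have h3 : X * E' * Y = E := by
    rw [← h2, ← Matrix.mul_assoc X Y X, Matrix.mul_assoc (X * Y) X Y, h1, hE]
  have h4 := a.rank_rep_mul_le hXE' hY
  rw [h3] at h4
  obtain ⟨D, hD⟩ : ∃ D, D = a.rep (X * E') - a.rep X * a.rep E' := ⟨_, rfl⟩
  have h5 : D.rank ≤ Fintype.card κ * a.T.card := by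
    have h := RankLin.rank_le_cols D (Finset.univ ×ˢ a.T : Finset (κ × Fin a.N)) (by
      intro q hq p
      have hq2 : q.2 ∉ a.T := fun h => hq (Finset.mem_product.mpr ⟨Finset.mem_univ _, h⟩)
      rw [hD, Matrix.sub_apply, a.rep_mul_apply hX hE' p q hq2, sub_self])
    rwa [Finset.card_product, Finset.card_univ] at h
  have h6 : a.rep (X * E') * a.rep Y = a.rep X * a.rep E' * a.rep Y + D * a.rep Y := by
    rw [← Matrix.add_mul, hD, add_sub_cancel]
  have h7 : (a.rep (X * E') * a.rep Y).rank ≤ (a.rep E').rank + Fintype.card κ * a.T.card := by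
    rw [h6]
    refine (RankLin.rank_add_le _ _).trans (add_le_add ?_ ?_)
    · exact (Matrix.rank_mul_le_left _ _).trans (Matrix.rank_mul_le_right _ _)
    · exact (Matrix.rank_mul_le_left _ _).trans h5
  have h8 : (Fintype.card ι + Fintype.card κ) * a.T.card =
      Fintype.card ι * a.T.card + Fintype.card κ * a.T.card := by ring
  omega

/-- Direct sums. -/
theorem rank_rep_fromBlocks (E : Matrix ι ι (MonoidAlgebra K G))
    (E' : Matrix κ κ (MonoidAlgebra K G)) :
    (a.rep (Matrix.fromBlocks E 0 0 E')).rank = (a.rep E).rank + (a.rep E').rank := by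
  rw [← RankLin.rank_fromBlocks]
  have h : Matrix.fromBlocks (a.rep E) 0 0 (a.rep E') =
      (a.rep (Matrix.fromBlocks E 0 0 E')).submatrix
        (Equiv.sumProdDistrib ι κ (Fin a.N)).symm (Equiv.sumProdDistrib ι κ (Fin a.N)).symm := by
    ext p q
    rcases p with ⟨i, x⟩ | ⟨i, x⟩ <;> rcases q with ⟨j, y⟩ | ⟨j, y⟩ <;>
      simp [rep]
  rw [h, Matrix.rank_submatrix]

/-- The lower bound for the rank of a nonzero matrix. -/
theorem le_rank_rep {E : Matrix ι ι (MonoidAlgebra K G)} {i0 j0 : ι} {g0 : G} {S : Finset G}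
    (hS : S = (E i0 j0).coeff.support) (hg0 : g0 ∈ S) (hF : ∀ g ∈ S, g ∈ F)
    (hFi : ∀ g ∈ S, g⁻¹ * g0 ∈ F) :
    a.N ≤ (2 * S.card + 1) * (a.rep E).rank + a.T.card := by
  classical
  obtain ⟨Y, hY1, hY2, hY3⟩ := RankLin.exists_indep (Finset.univ \ a.T)
    (fun y => S.image (fun g => (a.σ g).symm (a.σ g0 y)) ∪
      S.image (fun g => (a.σ g0).symm (a.σ g y)))
    (2 * S.card)
    (by
      intro y
      have h1 := Finset.card_union_le (S.image (fun g => (a.σ g).symm (a.σ g0 y)))
        (S.image (fun g => (a.σ g0).symm (a.σ g y)))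
      have h2 : (S.image (fun g => (a.σ g).symm (a.σ g0 y))).card ≤ S.card :=
        Finset.card_image_le
      have h3 : (S.image (fun g => (a.σ g0).symm (a.σ g y))).card ≤ S.card :=
        Finset.card_image_le
      omega)
    (by
      intro y z hz
      simp only [Finset.mem_union, Finset.mem_image] at hz ⊢
      rcases hz with ⟨g, hg, h⟩ | ⟨g, hg, h⟩
      · right
        refine ⟨g, hg, ?_⟩
        rw [Equiv.symm_apply_eq] at h ⊢
        exact h.symm
      · left
        refine ⟨g, hg, ?_⟩
        rw [Equiv.symm_apply_eq] at h ⊢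
        exact h.symm)
  have hlow : Y.card ≤ (a.rep E).rank := by
    have := RankLin.le_rank (a.rep E) (fun y : Y => (i0, a.σ g0 y.1)) (fun z : Y => (j0, z.1))
      ((E i0 j0).coeff g0) (by
        rw [hS] at hg0
        exact Finsupp.mem_support_iff.1 hg0) (by
      intro y z
      have hz : z.1 ∉ a.T := (Finset.mem_sdiff.mp (hY1 z.2)).2
      rw [rep, sphi_apply, ← hS]
      by_cases hyz : y = z
      · subst hyz
        rw [if_pos rfl]
        rw [Finset.sum_eq_single g0]
        · simp
        · intro g hg hgg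
          apply if_neg
          intro h
          have h2 : g * (g⁻¹ * g0) = g0 := by group
          have h3 := a.mul y.1 hz g (hF g hg) (g⁻¹ * g0) (hFi g hg)
          rw [h2] at h3
          have h4 : a.σ g y.1 = a.σ g0 y.1 := h
          rw [h3] at h4
          have h5 := (a.σ g).injective h4
          refine a.free y.1 hz (g⁻¹ * g0) (hFi g hg) ?_ h5.symm
          intro h6
          exact hgg (by rw [inv_mul_eq_one] at h6; exact h6)
        · intro h
          exact absurd hg0 h
      · rw [if_neg hyz]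
        apply Finset.sum_eq_zero
        intro g hg
        apply if_neg
        intro h
        apply hY2 y.1 y.2 z.1 z.2 (fun h => hyz (Subtype.ext h))
        rw [Finset.mem_union, Finset.mem_image]
        left
        refine ⟨g, hg, ?_⟩
        rw [Equiv.symm_apply_eq]
        exact h.symm)
    simpa using this
  have hD : (Finset.univ \ a.T).card + a.T.card = a.N := by
    have := Finset.card_sdiff_add_card_eq_card (Finset.subset_univ a.T)
    simpa using this
  have h2 : (2 * S.card + 1) * Y.card ≤ (2 * S.card + 1) * (a.rep E).rank :=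
    Nat.mul_le_mul_left _ hlow
  omega

end Approx

end Pool.Agent.H.MP_a22eb7_al
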