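import Pool.Agent.H.MP_a22eb7_al.helper16.FinTr

set_option autoImplicit false

/-! For sofic groups whose `K₀` is rationally generated by the finite subgroups, the `p`-adic
Kaplansky trace is faithful on idempotent matrices. -/

namespace Pool.Agent.H.MP_a22eb7_al

open MonoidAlgebra

variable {p : ℕ} [hp : Fact p.Prime] {G : Type*} [Group G]

/-- The elements of `K₀(𝔽_p[G])` on which the sofic rank and the `p`-adic traces are given by the
same rational number. -/
def Comparable (hG : IsSofic G) (y : K0 (MonoidAlgebra (ZMod p) G)) : Prop :=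
  ∃ (L : ℕ) (z : ℤ), 0 < L ∧ (L : ℝ) * rkHom hG y = z ∧
    ∀ (n : ℕ) (hn : 1 ≤ n), (L : ZMod (p ^ n)) * trHom p G n hn y = (z : ZMod (p ^ n))

theorem comparable_of_mem (hG : IsSofic G) {y : K0 (MonoidAlgebra (ZMod p) G)}
    (hy : y ∈ finiteClasses p G) : Comparable hG y := by
  refine AddSubgroup.closure_induction (p := fun y _ => Comparable hG y) ?_ ?_ ?_ ?_ hy
  · rintro x ⟨E, H, hH, hE, rfl⟩
    have := Fintype.ofFinite H
    refine ⟨Fintype.card H, ((regS H E.mat).rank : ℤ), Fintype.card_pos, ?_, ?_⟩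
    · rw [rkHom_cls, rk_finite hG E H hE]
      push_cast
      rfl
    · intro n hn
      rw [trHom_cls, trN_finite hn E H hE]
      push_cast
      rfl
  · refine ⟨1, 0, one_pos, ?_, ?_⟩
    · rw [map_zero]
      simp
    · intro n hn
      rw [map_zero]
      simp
  · rintro x y - - ⟨L, z, hL, h1, h2⟩ ⟨L', z', hL', h1', h2'⟩
    refine ⟨L * L', L' * z + L * z', Nat.mul_pos hL hL', ?_, ?_⟩
    · rw [map_add]
      push_cast
      rw [← h1, ← h1']
      ring
    · intro n hn
      rw [map_add]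
      push_cast
      rw [← h2 n hn, ← h2' n hn]
      ring
  · rintro x - ⟨L, z, hL, h1, h2⟩
    refine ⟨L, -z, hL, ?_, ?_⟩
    · rw [map_neg]
      push_cast
      rw [← h1]
      ring
    · intro n hn
      rw [map_neg]
      push_cast
      rw [← h2 n hn]
      ring

/-- Faithfulness of the `p`-adic Kaplansky trace. -/
theorem eq_zero_of_trN (hG : IsSofic G) (hF : K0FromFinite p G)
    (E : IdemMat (MonoidAlgebra (ZMod p) G))
    (ht : ∀ (n : ℕ) (hn : 1 ≤ n), trN p G n hn E = 0) : E.mat = 0 := by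
  obtain ⟨m, hm, hmem⟩ := hF (K0.cls E)
  obtain ⟨L, z, hL, h1, h2⟩ := comparable_of_mem hG hmem
  have hz : z = 0 := by
    by_contra hz
    have h3 : ∀ n : ℕ, 1 ≤ n → ((p ^ n : ℕ) : ℤ) ∣ z := by
      intro n hn
      rw [← ZMod.intCast_zmod_eq_zero_iff_dvd z (p ^ n), ← h2 n hn, map_nsmul, trHom_cls, ht n hn,
        nsmul_zero, mul_zero]
    have h4 := h3 (z.natAbs + 1) (by omega)
    have h5 : p ^ (z.natAbs + 1) ∣ z.natAbs := by
      have := Int.natAbs_dvd_natAbs.2 h4
      simpa using this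
    have h6 := Nat.le_of_dvd (Int.natAbs_pos.2 hz) h5
    have h7 : z.natAbs + 1 < p ^ (z.natAbs + 1) := Nat.lt_pow_self hp.out.one_lt
    omega
  rw [hz, map_nsmul, rkHom_cls] at h1
  apply eq_zero_of_rk hG E
  have h8 : (L : ℝ) * (m • rk hG E) = (L * m : ℝ) * rk hG E := by
    rw [nsmul_eq_mul]
    ring
  rw [h8, Int.cast_zero] at h1
  have h9 : (L * m : ℝ) ≠ 0 := by positivity
  exact (mul_eq_zero.1 h1).resolve_left h9

end Pool.Agent.H.MP_a22eb7_al
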