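import Pool.Agent.H.MP_a22eb7_al.helper16.Approx

set_option autoImplicit false

/-! The sofic rank of matrices supported in a finite subgroup. -/

namespace Pool.Agent.H.MP_a22eb7_al

open MonoidAlgebra

theorem rank_le_submatrix {K : Type*} [Field K] {m n m' n' : Type*} [Fintype m] [Fintype n]
    [Fintype m'] [Fintype n'] (A : Matrix m n K) (e : m' → m) (f : n' → n)
    (he : Function.Injective e) (hf : Function.Injective f)
    (h1 : ∀ i j, i ∉ Set.range e → A i j = 0) (h2 : ∀ i j, j ∉ Set.range f → A i j = 0) :
    A.rank ≤ (A.submatrix e f).rank := by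
  classical
  let P : Matrix m m' K := fun i i' => if e i' = i then 1 else 0
  let Q : Matrix n' n K := fun j' j => if f j' = j then 1 else 0
  have h3 : A = P * (A.submatrix e f) * Q := by
    ext i j
    rw [Matrix.mul_apply]
    have h4 : ∀ j', (P * A.submatrix e f) i j' = A i (f j') := by
      intro j'
      rw [Matrix.mul_apply]
      by_cases hi : i ∈ Set.range e
      · obtain ⟨i0, rfl⟩ := hi
        rw [Finset.sum_eq_single i0]
        · simp [P]
        · intro i' _ hi'
          have : e i' ≠ e i0 := fun h => hi' (he h)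
          simp [P, this]
        · intro h
          exact absurd (Finset.mem_univ _) h
      · rw [h1 i (f j') hi]
        refine Finset.sum_eq_zero fun i' _ => ?_
        have : e i' ≠ i := fun h => hi ⟨i', h⟩
        simp [P, this]
    simp only [h4]
    by_cases hj : j ∈ Set.range f
    · obtain ⟨j0, rfl⟩ := hj
      rw [Finset.sum_eq_single j0]
      · simp [Q]
      · intro j' _ hj'
        have : f j' ≠ f j0 := fun h => hj' (hf h)
        simp [Q, this]
      · intro h
        exact absurd (Finset.mem_univ _) h
    · rw [h2 i j hj]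
      symm
      refine Finset.sum_eq_zero fun j' _ => ?_
      have : f j' ≠ j := fun h => hj ⟨j', h⟩
      simp [Q, this]
  calc A.rank = (P * (A.submatrix e f) * Q).rank := by rw [← h3]
    _ ≤ (P * (A.submatrix e f)).rank := Matrix.rank_mul_le_left _ _
    _ ≤ _ := Matrix.rank_mul_le_right _ _

section

variable {G : Type*} [Group G] {K : Type*} [Field K]

/-- The regular representation of a matrix whose entries are supported in the subgroup `H`. -/
def regS {ι : Type*} (H : Subgroup G) (E : Matrix ι ι (MonoidAlgebra K G)) :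
    Matrix (ι × H) (ι × H) K :=
  fun p q => (E p.1 q.1).coeff ((p.2 : G) * (q.2 : G)⁻¹)

variable {F : Finset G} {δ : ℝ} (a : Approx G F δ) {ι : Type*} [Fintype ι] (H : Subgroup G)

/-- The points with a good `H`-orbit. -/
def goodPts (y : Fin a.N) : Prop := y ∉ a.T ∧ ∀ h : H, a.σ h y ∉ a.T

variable {a H}

theorem Approx.one_apply (h1 : (1 : G) ∈ F) {y : Fin a.N} (hy : y ∉ a.T) : a.σ 1 y = y := by
  have := a.mul y hy 1 h1 1 h1
  rw [mul_one] at this
  exact ((a.σ 1).injective this).symm

/-- The action of `H` on the good points. -/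
@[reducible] def goodAction (hF : ∀ h : H, (h : G) ∈ F) :
    MulAction H {y : Fin a.N // goodPts a H y} where
  smul h y := ⟨a.σ h y.1, y.2.2 h, fun h' => by
    rw [← a.mul y.1 y.2.1 h' (hF h') h (hF h)]
    exact y.2.2 (h' * h)⟩
  one_smul y := Subtype.ext (Approx.one_apply (by simpa using hF 1) y.2.1)
  mul_smul h h' y := Subtype.ext (a.mul y.1 y.2.1 h (hF h) h' (hF h'))

open Classical in
theorem card_not_goodPts [Fintype H] :
    (Finset.univ.filter fun y : Fin a.N => ¬ goodPts a H y).card ≤
      (Fintype.card H + 1) * a.T.card := by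
  classical
  have h1 : (Finset.univ.filter fun y : Fin a.N => ¬ goodPts a H y) ⊆
      a.T ∪ (Finset.univ : Finset H).biUnion fun h => a.T.image fun x => (a.σ h).symm x := by
    intro y hy
    rw [Finset.mem_filter] at hy
    have hy2 := hy.2
    rw [goodPts, not_and_or, not_not] at hy2
    rw [Finset.mem_union]
    rcases hy2 with h | h
    · exact Or.inl h
    · push Not at h
      obtain ⟨h, hh⟩ := h
      right
      rw [Finset.mem_biUnion]
      refine ⟨h, Finset.mem_univ _, ?_⟩
      rw [Finset.mem_image]
      exact ⟨_, hh, Equiv.symm_apply_apply _ _⟩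
  refine (Finset.card_le_card h1).trans ((Finset.card_union_le _ _).trans ?_)
  have h2 : ((Finset.univ : Finset H).biUnion fun h =>
      a.T.image fun x => (a.σ h).symm x).card ≤ Fintype.card H * a.T.card := by
    refine Finset.card_biUnion_le.trans ?_
    refine (Finset.sum_le_sum fun h _ => Finset.card_image_le).trans ?_
    rw [Finset.sum_const, Finset.card_univ, smul_eq_mul]
  have h3 : (Fintype.card H + 1) * a.T.card = a.T.card + Fintype.card H * a.T.card := by ring
  omega

/-- The rank of a matrix supported in a finite subgroup. -/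
theorem rank_rep_finite [Fintype H] (hF : ∀ h : H, (h : G) ∈ F)
    (E : Matrix ι ι (MonoidAlgebra K G)) (hE : ∀ i j g, (E i j).coeff g ≠ 0 → g ∈ H) :
    ∃ v : ℕ, v ≤ a.N ∧ a.N ≤ v + (Fintype.card H + 1) * a.T.card ∧
      v * (regS H E).rank ≤ Fintype.card H * (a.rep E).rank ∧
      Fintype.card H * (a.rep E).rank ≤ v * (regS H E).rank +
        Fintype.card H * (Fintype.card ι * ((Fintype.card H + 1) * a.T.card)) := by
  classical
  let V := {y : Fin a.N // goodPts a H y}
  let act : MulAction H V := goodAction hF
  let Ω := MulAction.orbitRel.Quotient H V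
  have : Fintype Ω := Fintype.ofFinite _
  have hsmul : ∀ (h : H) (y : V), ((h • y : V) : Fin a.N) = a.σ h y.1 := fun h y => rfl
  have hfree : ∀ (h : H) (y : V), h • y = y → h = 1 := by
    intro h y hy
    by_contra hne
    refine a.free y.1 y.2.1 h (hF h) (fun h2 => hne (Subtype.ext h2)) ?_
    rw [← hsmul, hy]
  let φ : Ω × H → V := fun x => x.2 • (Quotient.out x.1 : V)
  have hφ : Function.Bijective φ := by
    constructor
    · rintro ⟨o, h⟩ ⟨o', h'⟩ hxy
      simp only [φ] at hxy
      have h1 : o = o' := by
        have h2 : (Quotient.mk'' (Quotient.out o : V) : Ω) = Quotient.mk'' (Quotient.out o' : V) := by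
          rw [Quotient.eq'']
          refine ⟨h⁻¹ * h', ?_⟩
          change (h⁻¹ * h') • (Quotient.out o' : V) = Quotient.out o
          rw [mul_smul, ← hxy, inv_smul_smul]
        rwa [Quotient.out_eq', Quotient.out_eq'] at h2
      subst h1
      have h3 : (h⁻¹ * h') • (Quotient.out o : V) = Quotient.out o := by
        rw [mul_smul, ← hxy, inv_smul_smul]
      have h4 := hfree _ _ h3
      rw [inv_mul_eq_one] at h4
      rw [h4]
    · intro y
      have h2 : (Quotient.mk'' (Quotient.out (Quotient.mk'' y : Ω) : V) : Ω) = Quotient.mk'' y :=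
        Quotient.out_eq' _
      rw [Quotient.eq''] at h2
      obtain ⟨h, hh⟩ := h2
      refine ⟨(Quotient.mk'' y, h⁻¹), ?_⟩
      simp only [φ]
      rw [← hh]
      exact inv_smul_smul h y
  let Φ : Ω × H ≃ V := Equiv.ofBijective φ hφ
  -- the small matrix
  let M' : Matrix (ι × V) (ι × V) K :=
    (a.rep E).submatrix (fun x : ι × V => (x.1, x.2.1)) (fun x : ι × V => (x.1, x.2.1))
  let Ψ : (ι × H) × Ω ≃ ι × V :=
    (Equiv.prodAssoc ι H Ω).trans (Equiv.prodCongr (Equiv.refl ι) ((Equiv.prodComm H Ω).trans Φ))
  have hM' : M'.submatrix Ψ Ψ = Matrix.blockDiagonal fun _ : Ω => regS H E := by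
    ext ⟨⟨i, h⟩, o⟩ ⟨⟨j, h'⟩, o'⟩
    rw [Matrix.blockDiagonal_apply]
    change sphi a.σ ((h • (Quotient.out o : V) : V) : Fin a.N)
      ((h' • (Quotient.out o' : V) : V) : Fin a.N) (E i j) = _
    rw [sphi_apply]
    have key : ∀ g ∈ (E i j).coeff.support,
        (a.σ g ((h' • (Quotient.out o' : V) : V) : Fin a.N) =
          ((h • (Quotient.out o : V) : V) : Fin a.N)) ↔ (o = o' ∧ g = h * (h' : G)⁻¹) := by
      intro g hg
      have hgH : g ∈ H := hE i j g (Finsupp.mem_support_iff.1 hg)
      have h1 : a.σ g ((h' • (Quotient.out o' : V) : V) : Fin a.N) =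
          (((⟨g, hgH⟩ * h' : H) • (Quotient.out o' : V) : V) : Fin a.N) := by
        rw [mul_smul]
        rfl
      rw [h1, ← Subtype.ext_iff]
      constructor
      · intro h2
        have h3 : Φ (o', ⟨g, hgH⟩ * h') = Φ (o, h) := h2
        have h4 := Φ.injective h3
        rw [Prod.mk.injEq] at h4
        refine ⟨h4.1.symm, ?_⟩
        rw [← h4.2]
        simp
      · rintro ⟨rfl, h3⟩
        congr 1
        apply Subtype.ext
        simp [h3]
    rw [Finset.sum_congr rfl fun g hg => if_congr (key g hg) rfl rfl]
    by_cases ho : o = o'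
    · rw [if_pos ho]
      simp only [ho, true_and]
      rw [Finset.sum_ite_eq']
      split_ifs with h5
      · rfl
      · exact (Finsupp.notMem_support_iff.1 h5).symm
    · rw [if_neg ho]
      refine Finset.sum_eq_zero fun g _ => if_neg ?_
      exact fun h => ho h.1
  have hrank : M'.rank = Fintype.card Ω * (regS H E).rank := by
    rw [← RankLin.rank_blockDiagonal, ← hM', Matrix.rank_submatrix]
  have hcardV : Fintype.card V = Fintype.card Ω * Fintype.card H := by
    rw [← Fintype.card_congr Φ, Fintype.card_prod]
  have hbad := card_not_goodPts (a := a) (H := H)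
  have hVN : Fintype.card V + (Finset.univ.filter fun y : Fin a.N => ¬ goodPts a H y).card =
      a.N := by
    rw [Fintype.card_subtype, Finset.card_filter_add_card_filter_not, Finset.card_univ,
      Fintype.card_fin]
  have hlow : M'.rank ≤ (a.rep E).rank := Matrix.rank_submatrix_le _ _ _
  have hup : (a.rep E).rank ≤ M'.rank + Fintype.card ι * ((Fintype.card H + 1) * a.T.card) := by
    let B : Matrix (ι × Fin a.N) (ι × Fin a.N) K :=
      fun p q => if goodPts a H q.2 then a.rep E p q else 0
    have h1 := RankLin.rank_le_of_cols (a.rep E) B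
      (Finset.univ ×ˢ (Finset.univ.filter fun y : Fin a.N => ¬ goodPts a H y) :
        Finset (ι × Fin a.N)) (by
        intro q hq p
        have hq2 : goodPts a H q.2 := by
          by_contra h
          exact hq (Finset.mem_product.mpr ⟨Finset.mem_univ _,
            Finset.mem_filter.2 ⟨Finset.mem_univ _, h⟩⟩)
        simp only [B, if_pos hq2])
    rw [Finset.card_product, Finset.card_univ] at h1
    have h2 : B.rank ≤ M'.rank := by
      have h3 := rank_le_submatrix B (fun x : ι × V => (x.1, x.2.1))
        (fun x : ι × V => (x.1, x.2.1))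
        (by
          rintro ⟨i, x⟩ ⟨j, y⟩ hxy
          simp only [Prod.mk.injEq] at hxy
          exact Prod.ext hxy.1 (Subtype.ext hxy.2))
        (by
          rintro ⟨i, x⟩ ⟨j, y⟩ hxy
          simp only [Prod.mk.injEq] at hxy
          exact Prod.ext hxy.1 (Subtype.ext hxy.2))
        (by
          intro p q hp
          by_cases hq : goodPts a H q.2
          · simp only [B, if_pos hq]
            change sphi a.σ p.2 q.2 (E p.1 q.1) = 0
            rw [sphi_apply]
            refine Finset.sum_eq_zero fun g hg => if_neg ?_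
            intro h4
            apply hp
            have hgH : g ∈ H := hE _ _ g (Finsupp.mem_support_iff.1 hg)
            exact ⟨(p.1, (⟨g, hgH⟩ : H) • (⟨q.2, hq⟩ : V)), Prod.ext rfl h4⟩
          · simp only [B, if_neg hq])
        (by
          intro p q hq
          have : ¬ goodPts a H q.2 := fun h => hq ⟨(q.1, ⟨q.2, h⟩), rfl⟩
          simp only [B, if_neg this])
      refine h3.trans (le_of_eq ?_)
      congr 1
      ext x y
      change (if goodPts a H y.2.1 then a.rep E (x.1, x.2.1) (y.1, y.2.1) else 0) = _
      rw [if_pos y.2.2]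
      rfl
    refine h1.trans (add_le_add h2 ?_)
    exact Nat.mul_le_mul_left _ hbad
  refine ⟨Fintype.card V, by omega, by omega, ?_, ?_⟩
  · rw [hcardV]
    calc Fintype.card Ω * Fintype.card H * (regS H E).rank
        = Fintype.card H * M'.rank := by rw [hrank]; ring
      _ ≤ _ := Nat.mul_le_mul_left _ hlow
  · rw [hcardV]
    calc Fintype.card H * (a.rep E).rank
        ≤ Fintype.card H * (M'.rank +
          Fintype.card ι * ((Fintype.card H + 1) * a.T.card)) := Nat.mul_le_mul_left _ hup
      _ = _ := by rw [hrank]; ring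

end

end Pool.Agent.H.MP_a22eb7_al
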