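import Pool.Agent.H.MP_a22eb7_al.helper16.K0
import Pool.Agent.H.MP_a22eb7_al.helper16.FinSub

set_option autoImplicit false

/-! The sofic rank as a homomorphism `K₀(K[G]) → ℝ`. -/

namespace Pool.Agent.H.MP_a22eb7_al

open MonoidAlgebra Filter Topology

section

variable {G : Type*} [Group G] (hG : IsSofic G) {K : Type*} [Field K]

open Classical in
/-- a choice of sofic approximations -/
noncomputable def apx (i : Finset G × ℕ) : Approx G (insert 1 i.1) (1 / ((i.2 : ℝ) + 1)) :=
  (exists_approx hG (insert 1 i.1) (by positivity)).some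

/-- the normalised rank -/
noncomputable def rkI (E : IdemMat (MonoidAlgebra K G)) (i : Finset G × ℕ) : ℝ :=
  (((apx hG i).rep E.mat).rank : ℝ) / (apx hG i).N

open Classical in
/-- the ultrafilter -/
noncomputable def omg (G : Type*) : Ultrafilter (Finset G × ℕ) := Ultrafilter.of atTop

open Classical in
theorem omg_le (G : Type*) : (omg G : Filter (Finset G × ℕ)) ≤ atTop :=
  Ultrafilter.of_le (atTop : Filter (Finset G × ℕ))

theorem posN (i : Finset G × ℕ) : (0 : ℝ) < (apx hG i).N := by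
  exact_mod_cast (apx hG i).pos

theorem rkI_mem (E : IdemMat (MonoidAlgebra K G)) (i : Finset G × ℕ) :
    rkI hG E i ∈ Set.Icc (0 : ℝ) E.n := by
  constructor
  · unfold rkI
    positivity
  · unfold rkI
    rw [div_le_iff₀ (posN hG i)]
    have h := Matrix.rank_le_card_width ((apx hG i).rep E.mat)
    rw [Fintype.card_prod, Fintype.card_fin, Fintype.card_fin] at h
    exact_mod_cast h

theorem exists_rk (E : IdemMat (MonoidAlgebra K G)) :
    ∃ L : ℝ, Tendsto (rkI hG E) (omg G) (𝓝 L) := by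
  obtain ⟨L, -, hL⟩ := isCompact_Icc.ultrafilter_le_nhds ((omg G).map (rkI hG E))
    (s := Set.Icc (0 : ℝ) E.n) (by
      rw [Ultrafilter.coe_map]
      refine le_principal_iff.2 ?_
      exact Filter.mem_map.2 (Filter.univ_mem' fun i => rkI_mem hG E i))
  exact ⟨L, hL⟩

/-- the sofic rank -/
noncomputable def rk (E : IdemMat (MonoidAlgebra K G)) : ℝ := (exists_rk hG E).choose

theorem tendsto_rk (E : IdemMat (MonoidAlgebra K G)) :
    Tendsto (rkI hG E) (omg G) (𝓝 (rk hG E)) := (exists_rk hG E).choose_spec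

theorem tendsto_eps : Tendsto (fun i : Finset G × ℕ => 1 / ((i.2 : ℝ) + 1)) (omg G) (𝓝 0) := by
  have h1 : Tendsto (fun i : Finset G × ℕ => i.2) atTop atTop := by
    rw [← Filter.prod_atTop_atTop_eq]
    exact tendsto_snd
  exact (tendsto_one_div_add_atTop_nhds_zero_nat.comp h1).mono_left (omg_le G)

theorem eventually_subset (F : Finset G) : ∀ᶠ i in (omg G : Filter (Finset G × ℕ)), F ⊆ i.1 := by
  refine (omg_le G) ?_
  filter_upwards [eventually_ge_atTop ((F, 0) : Finset G × ℕ)] with i hi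
  exact hi.1

theorem cardT_div (i : Finset G × ℕ) :
    ((apx hG i).T.card : ℝ) / (apx hG i).N ≤ 1 / ((i.2 : ℝ) + 1) := by
  rw [div_le_iff₀ (posN hG i)]
  exact (apx hG i).cardT

theorem rk_le {E E' : IdemMat (MonoidAlgebra K G)} (h : E.Equivalent E') : rk hG E ≤ rk hG E' := by
  classical
  obtain ⟨X, Y, h1, h2⟩ := h
  obtain ⟨F₁, hF₁⟩ := Approx.exists_supp X
  obtain ⟨F₂, hF₂⟩ := Approx.exists_supp Y
  obtain ⟨F₃, hF₃⟩ := Approx.exists_supp E'.mat
  obtain ⟨F₄, hF₄⟩ := Approx.exists_supp (X * E'.mat)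
  have key : ∀ᶠ i in (omg G : Filter (Finset G × ℕ)),
      rkI hG E i ≤ rkI hG E' i + (E.n + E'.n) * (1 / ((i.2 : ℝ) + 1)) := by
    filter_upwards [eventually_subset (F₁ ∪ F₂ ∪ F₃ ∪ F₄)] with i hi
    have hsub : ∀ F : Finset G, F ⊆ F₁ ∪ F₂ ∪ F₃ ∪ F₄ → F ⊆ insert 1 i.1 := fun F hF =>
      (hF.trans hi).trans (Finset.subset_insert _ _)
    have h3 := (apx hG i).rank_rep_le E.idem h1 h2
      (hF₁.mono (hsub _ (by intro x hx; simp [hx])))
      (hF₂.mono (hsub _ (by intro x hx; simp [hx])))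
      (hF₃.mono (hsub _ (by intro x hx; simp [hx])))
      (hF₄.mono (hsub _ (by intro x hx; simp [hx])))
    rw [Fintype.card_fin, Fintype.card_fin] at h3
    have h4 : (((apx hG i).rep E.mat).rank : ℝ) ≤ ((apx hG i).rep E'.mat).rank +
        ((E.n : ℝ) + E'.n) * (apx hG i).T.card := by exact_mod_cast h3
    have h5 : (((apx hG i).rep E.mat).rank : ℝ) / (apx hG i).N ≤
        (((apx hG i).rep E'.mat).rank + ((E.n : ℝ) + E'.n) * (apx hG i).T.card) /
          (apx hG i).N := div_le_div_of_nonneg_right h4 (posN hG i).le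
    rw [add_div, mul_div_assoc] at h5
    refine h5.trans ?_
    unfold rkI
    have h6 := mul_le_mul_of_nonneg_left (cardT_div hG i)
      (show (0 : ℝ) ≤ (E.n : ℝ) + E'.n by positivity)
    linarith
  have h7 : Tendsto (fun i : Finset G × ℕ =>
      rkI hG E' i + (E.n + E'.n) * (1 / ((i.2 : ℝ) + 1))) (omg G)
      (𝓝 (rk hG E' + (E.n + E'.n) * 0)) :=
    (tendsto_rk hG E').add (tendsto_eps.const_mul _)
  rw [mul_zero, add_zero] at h7
  exact le_of_tendsto_of_tendsto (tendsto_rk hG E) h7 key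

theorem rk_eq {E E' : IdemMat (MonoidAlgebra K G)} (h : E.Equivalent E') : rk hG E = rk hG E' := by
  apply le_antisymm (rk_le hG h)
  obtain ⟨X, Y, h1, h2⟩ := h
  exact rk_le hG ⟨Y, X, h2, h1⟩

theorem rk_dsum (E E' : IdemMat (MonoidAlgebra K G)) :
    rk hG (E.dsum E') = rk hG E + rk hG E' := by
  have h1 : ∀ i, rkI hG (E.dsum E') i = rkI hG E i + rkI hG E' i := by
    intro i
    unfold rkI
    rw [← add_div]
    congr 1
    have h2 := (apx hG i).rank_rep_fromBlocks E.mat E'.mat
    have h3 : (apx hG i).rep (E.dsum E').mat =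
        ((apx hG i).rep (Matrix.fromBlocks E.mat 0 0 E'.mat)).submatrix
          (Equiv.prodCongr finSumFinEquiv.symm (Equiv.refl _))
          (Equiv.prodCongr finSumFinEquiv.symm (Equiv.refl _)) := rfl
    have h4 : ((apx hG i).rep (E.dsum E').mat).rank =
        ((apx hG i).rep (Matrix.fromBlocks E.mat 0 0 E'.mat)).rank := by
      rw [h3]
      exact Matrix.rank_submatrix _ _ _
    rw [h4, h2]
    push_cast
    rfl
  have h5 := (tendsto_rk hG E).add (tendsto_rk hG E')
  have h6 := tendsto_rk hG (E.dsum E')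
  rw [show rkI hG (E.dsum E') = fun i => rkI hG E i + rkI hG E' i from funext h1] at h6
  exact tendsto_nhds_unique h6 h5

theorem eq_zero_of_rk (E : IdemMat (MonoidAlgebra K G)) (h : rk hG E = 0) : E.mat = 0 := by
  classical
  by_contra hne
  obtain ⟨i0, j0, hij⟩ : ∃ i j, E.mat i j ≠ 0 := by
    by_contra h
    push Not at h
    exact hne (Matrix.ext h)
  obtain ⟨g0, hg0⟩ : ∃ g0, (E.mat i0 j0).coeff g0 ≠ 0 := by
    by_contra h
    push Not at h
    exact hij (MonoidAlgebra.coeff_injective (Finsupp.ext h))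
  obtain ⟨S, hS⟩ : ∃ S, S = (E.mat i0 j0).coeff.support := ⟨_, rfl⟩
  have hg0S : g0 ∈ S := by rw [hS]; exact Finsupp.mem_support_iff.mpr hg0
  have key : ∀ᶠ i in (omg G : Filter (Finset G × ℕ)),
      1 ≤ (2 * S.card + 1) * rkI hG E i + 1 / ((i.2 : ℝ) + 1) := by
    filter_upwards [eventually_subset (S ∪ S.image fun g => g⁻¹ * g0)] with i hi
    have hsub : S ∪ S.image (fun g => g⁻¹ * g0) ⊆ insert 1 i.1 :=
      hi.trans (Finset.subset_insert _ _)
    have h3 := (apx hG i).le_rank_rep (E := E.mat) hS hg0S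
      (fun g hg => hsub (Finset.mem_union_left _ hg))
      (fun g hg => hsub (Finset.mem_union_right _ (Finset.mem_image_of_mem _ hg)))
    have h4 : ((apx hG i).N : ℝ) ≤ (2 * S.card + 1) * ((apx hG i).rep E.mat).rank +
        (apx hG i).T.card := by exact_mod_cast h3
    have h5 : ((apx hG i).N : ℝ) / (apx hG i).N ≤
        ((2 * S.card + 1) * ((apx hG i).rep E.mat).rank + (apx hG i).T.card) / (apx hG i).N :=
      div_le_div_of_nonneg_right h4 (posN hG i).le
    rw [div_self (posN hG i).ne', add_div, mul_div_assoc] at h5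
    have h6 := cardT_div hG i
    unfold rkI
    linarith
  have h7 : Tendsto (fun i : Finset G × ℕ =>
      (2 * (S.card : ℝ) + 1) * rkI hG E i + 1 / ((i.2 : ℝ) + 1)) (omg G)
      (𝓝 ((2 * (S.card : ℝ) + 1) * rk hG E + 0)) :=
    ((tendsto_rk hG E).const_mul _).add tendsto_eps
  rw [h, mul_zero, zero_add] at h7
  have h8 := ge_of_tendsto h7 key
  linarith

/-- The sofic rank of a matrix supported in a finite subgroup. -/
theorem rk_finite (E : IdemMat (MonoidAlgebra K G)) (H : Subgroup G) [Fintype H]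
    (hE : ∀ i j g, (E.mat i j).coeff g ≠ 0 → g ∈ H) :
    (Fintype.card H : ℝ) * rk hG E = (regS H E.mat).rank := by
  classical
  obtain ⟨d, hd⟩ : ∃ d, d = (regS H E.mat).rank := ⟨_, rfl⟩
  obtain ⟨FH, hFH⟩ : ∃ FH : Finset G, ∀ h : H, (h : G) ∈ FH :=
    ⟨Finset.univ.image (fun h : H => (h : G)), fun h =>
      Finset.mem_image_of_mem _ (Finset.mem_univ h)⟩
  have key : ∀ᶠ i in (omg G : Filter (Finset G × ℕ)),
      (d : ℝ) - (Fintype.card H + 1) * d * (1 / ((i.2 : ℝ) + 1)) ≤ Fintype.card H * rkI hG E i ∧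
      Fintype.card H * rkI hG E i ≤ d +
        Fintype.card H * E.n * (Fintype.card H + 1) * (1 / ((i.2 : ℝ) + 1)) := by
    filter_upwards [eventually_subset FH] with i hi
    obtain ⟨v, hv1, hv2, hv3, hv4⟩ := rank_rep_finite (a := apx hG i) (H := H)
      (fun h => Finset.mem_insert_of_mem (hi (hFH h))) E.mat hE
    rw [← hd] at hv3 hv4
    rw [Fintype.card_fin] at hv4
    have hN := posN hG i
    have hT := cardT_div hG i
    have a1 : (v : ℝ) ≤ (apx hG i).N := by exact_mod_cast hv1
    have a2 : ((apx hG i).N : ℝ) ≤ v + (Fintype.card H + 1) * (apx hG i).T.card := by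
      exact_mod_cast hv2
    have a3 : (v : ℝ) * d ≤ Fintype.card H * ((apx hG i).rep E.mat).rank := by exact_mod_cast hv3
    have a4 : (Fintype.card H : ℝ) * ((apx hG i).rep E.mat).rank ≤ v * d +
        Fintype.card H * (E.n * ((Fintype.card H + 1) * (apx hG i).T.card)) := by
      exact_mod_cast hv4
    have hT' : ((apx hG i).T.card : ℝ) ≤ 1 / ((i.2 : ℝ) + 1) * (apx hG i).N := (apx hG i).cardT
    have hd0 : (0 : ℝ) ≤ d := by positivity
    have hh0 : (0 : ℝ) ≤ Fintype.card H := by positivity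
    have hn0 : (0 : ℝ) ≤ E.n := by positivity
    constructor
    · unfold rkI
      rw [show (Fintype.card H : ℝ) * ((((apx hG i).rep E.mat).rank : ℝ) / (apx hG i).N) =
        (Fintype.card H : ℝ) * ((apx hG i).rep E.mat).rank / (apx hG i).N from
        (mul_div_assoc _ _ _).symm, le_div_iff₀ hN]
      have b1 : ((apx hG i).N : ℝ) * d ≤
          (v + (Fintype.card H + 1) * (apx hG i).T.card) * d := mul_le_mul_of_nonneg_right a2 hd0
      have b2 : (Fintype.card H + 1 : ℝ) * d * (apx hG i).T.card ≤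
          (Fintype.card H + 1) * d * (1 / ((i.2 : ℝ) + 1) * (apx hG i).N) :=
        mul_le_mul_of_nonneg_left hT' (by positivity)
      calc ((d : ℝ) - (Fintype.card H + 1) * d * (1 / ((i.2 : ℝ) + 1))) * (apx hG i).N
          = (apx hG i).N * d - (Fintype.card H + 1) * d * (1 / ((i.2 : ℝ) + 1) *
            (apx hG i).N) := by ring
        _ ≤ (v + (Fintype.card H + 1) * (apx hG i).T.card) * d -
            (Fintype.card H + 1 : ℝ) * d * (apx hG i).T.card := by linarith
        _ = v * d := by ring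
        _ ≤ _ := a3
    · unfold rkI
      rw [show (Fintype.card H : ℝ) * ((((apx hG i).rep E.mat).rank : ℝ) / (apx hG i).N) =
        (Fintype.card H : ℝ) * ((apx hG i).rep E.mat).rank / (apx hG i).N from
        (mul_div_assoc _ _ _).symm, div_le_iff₀ hN]
      have b1 : (v : ℝ) * d ≤ (apx hG i).N * d := mul_le_mul_of_nonneg_right a1 hd0
      have b2 : (Fintype.card H : ℝ) * E.n * (Fintype.card H + 1) * (apx hG i).T.card ≤
          Fintype.card H * E.n * (Fintype.card H + 1) * (1 / ((i.2 : ℝ) + 1) * (apx hG i).N) :=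
        mul_le_mul_of_nonneg_left hT' (by positivity)
      calc (Fintype.card H : ℝ) * ((apx hG i).rep E.mat).rank
          ≤ v * d + Fintype.card H * (E.n * ((Fintype.card H + 1) * (apx hG i).T.card)) := a4
        _ = v * d + Fintype.card H * E.n * (Fintype.card H + 1) * (apx hG i).T.card := by ring
        _ ≤ (apx hG i).N * d + Fintype.card H * E.n * (Fintype.card H + 1) *
            (1 / ((i.2 : ℝ) + 1) * (apx hG i).N) := add_le_add b1 b2
        _ = _ := by ring
  have h1 : Tendsto (fun i : Finset G × ℕ => (Fintype.card H : ℝ) * rkI hG E i) (omg G)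
      (𝓝 (Fintype.card H * rk hG E)) := (tendsto_rk hG E).const_mul _
  have h2 : Tendsto (fun i : Finset G × ℕ =>
      (d : ℝ) - (Fintype.card H + 1) * d * (1 / ((i.2 : ℝ) + 1))) (omg G)
      (𝓝 ((d : ℝ) - (Fintype.card H + 1) * d * 0)) := tendsto_const_nhds.sub
        (tendsto_eps.const_mul _)
  have h3 : Tendsto (fun i : Finset G × ℕ => (d : ℝ) +
      Fintype.card H * E.n * (Fintype.card H + 1) * (1 / ((i.2 : ℝ) + 1))) (omg G)
      (𝓝 ((d : ℝ) + Fintype.card H * E.n * (Fintype.card H + 1) * 0)) := tendsto_const_nhds.add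
        (tendsto_eps.const_mul _)
  rw [mul_zero, sub_zero] at h2
  rw [mul_zero, add_zero] at h3
  rw [← hd]
  exact le_antisymm (le_of_tendsto_of_tendsto h1 h3 (key.mono fun i hi => hi.2))
    (le_of_tendsto_of_tendsto h2 h1 (key.mono fun i hi => hi.1))

/-- The sofic rank on `K₀`. -/
noncomputable def rkHom : K0 (MonoidAlgebra K G) →+ ℝ :=
  K0.lift (rk hG) (fun _ _ h => rk_eq hG h) (fun E E' => rk_dsum hG E E')

theorem rkHom_cls (E : IdemMat (MonoidAlgebra K G)) : rkHom hG (K0.cls E) = rk hG E :=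
  K0.lift_cls _ _ _ E

end

end Pool.Agent.H.MP_a22eb7_al
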