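import Pool.Agent.H.MP_a22eb7_al.helper16.TrP
import Pool.Agent.H.MP_a22eb7_al.helper16.SofRank

set_option autoImplicit false

/-! The `p`-adic trace of matrices supported in a finite subgroup. -/

namespace Pool.Agent.H.MP_a22eb7_al

open MonoidAlgebra LinearMap

/-- Over a local ring an idempotent matrix is a product `XY` with `YX = 1`. -/
theorem idem_local_factor {R : Type*} [CommRing R] [IsLocalRing R] {s : Type*} [Fintype s]
    [DecidableEq s] (P : Matrix s s R) (hP : P * P = P) :
    ∃ (r : ℕ) (X : Matrix s (Fin r) R) (Y : Matrix (Fin r) s R), X * Y = P ∧ Y * X = 1 := by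
  classical
  let f : (s → R) →ₗ[R] (s → R) := P.mulVecLin
  have hf : IsIdempotentElem f := by
    change P.mulVecLin * P.mulVecLin = P.mulVecLin
    rw [Module.End.mul_eq_comp, ← Matrix.mulVecLin_mul, hP]
  have hpr : IsProj (range f) f := IsIdempotentElem.isProj_range f hf
  have hfin1 : Module.Finite R (range f) := inferInstance
  have hproj1 : Module.Projective R (range f) :=
    Module.Projective.of_split (range f).subtype hpr.codRestrict (by
      ext1 x
      exact hpr.codRestrict_apply_cod x)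
  have hfree1 : Module.Free R (range f) := Module.free_of_flat_of_isLocalRing
  let b := Module.finBasis R (range f)
  refine ⟨Module.finrank R (range f),
    LinearMap.toMatrix' ((range f).subtype ∘ₗ b.equivFun.symm.toLinearMap),
    LinearMap.toMatrix' (b.equivFun.toLinearMap ∘ₗ hpr.codRestrict), ?_, ?_⟩
  · rw [← LinearMap.toMatrix'_comp]
    have h1 : ((range f).subtype ∘ₗ b.equivFun.symm.toLinearMap) ∘ₗ
        (b.equivFun.toLinearMap ∘ₗ hpr.codRestrict) = f := by
      refine LinearMap.ext fun x => ?_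
      simp only [LinearMap.comp_apply, LinearEquiv.coe_coe, LinearEquiv.symm_apply_apply]
      rfl
    rw [h1]
    exact LinearMap.toMatrix'_toLin' P
  · rw [← LinearMap.toMatrix'_comp]
    have h1 : (b.equivFun.toLinearMap ∘ₗ hpr.codRestrict) ∘ₗ
        ((range f).subtype ∘ₗ b.equivFun.symm.toLinearMap) = LinearMap.id := by
      refine LinearMap.ext fun x => ?_
      simp only [LinearMap.comp_apply, LinearEquiv.coe_coe, Submodule.subtype_apply,
        hpr.codRestrict_apply_cod, LinearEquiv.apply_symm_apply, LinearMap.id_coe, id_eq]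
    rw [h1, LinearMap.toMatrix'_id]

/-- The trace of an idempotent matrix over `ℤ/pⁿ` is the rank of its reduction. -/
theorem trace_eq_rank {p : ℕ} [Fact p.Prime] {n : ℕ} (hn : 1 ≤ n) (h : p ∣ p ^ n) {s : Type*}
    [Fintype s] [DecidableEq s] (P : Matrix s s (ZMod (p ^ n))) (hP : P * P = P) :
    P.trace = ((P.map (ZMod.castHom h (ZMod p))).rank : ZMod (p ^ n)) := by
  have := isLocalRing_zmod p n (by omega)
  obtain ⟨r, X, Y, hXY, hYX⟩ := idem_local_factor P hP
  have h1 : P.trace = (r : ZMod (p ^ n)) := by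
    rw [← hXY, Matrix.trace_mul_comm, hYX, Matrix.trace_one, Fintype.card_fin]
  rw [h1]
  congr 1
  have e1 : X.map (ZMod.castHom h (ZMod p)) * Y.map (ZMod.castHom h (ZMod p)) =
      P.map (ZMod.castHom h (ZMod p)) := by rw [← Matrix.map_mul, hXY]
  have e2 : Y.map (ZMod.castHom h (ZMod p)) * X.map (ZMod.castHom h (ZMod p)) = 1 := by
    rw [← Matrix.map_mul, hYX]
    exact Matrix.map_one _ (map_zero _) (map_one _)
  apply le_antisymm
  · have e3 : Y.map (ZMod.castHom h (ZMod p)) * P.map (ZMod.castHom h (ZMod p)) *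
        X.map (ZMod.castHom h (ZMod p)) = 1 := by
      rw [← e1, ← Matrix.mul_assoc, e2, Matrix.one_mul, e2]
    have e4 : (1 : Matrix (Fin r) (Fin r) (ZMod p)).rank = r := by
      rw [Matrix.rank_one, Fintype.card_fin]
    rw [← e4, ← e3]
    exact (Matrix.rank_mul_le_left _ _).trans (Matrix.rank_mul_le_right _ _)
  · rw [← e1]
    refine (Matrix.rank_mul_le_left _ _).trans ?_
    have := Matrix.rank_le_card_width (X.map (ZMod.castHom h (ZMod p)))
    rwa [Fintype.card_fin] at this

variable {p : ℕ} [hp : Fact p.Prime] {G : Type*} [Group G]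

/-- The `p`-adic trace of a matrix supported in a finite subgroup. -/
theorem trN_finite {n : ℕ} (hn : 1 ≤ n) (E : IdemMat (MonoidAlgebra (ZMod p) G)) (H : Subgroup G)
    [Fintype H] (hE : ∀ i j g, (E.mat i j).coeff g ≠ 0 → g ∈ H) :
    (Fintype.card H : ZMod (p ^ n)) * trN p G n hn E = ((regS H E.mat).rank : ZMod (p ^ n)) := by
  classical
  have hdvd : p ∣ p ^ n := dvd_pow_of_one_le hn
  -- the matrix over `H`
  obtain ⟨W, -, hW⟩ := exists_support' E.mat 1
  let W' : Finset G := W.filter fun g => g ∈ H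
  have hW' : ∀ i j m, (E.mat i j).coeff m ≠ 0 → m ∈ W' := fun i j m hm =>
    Finset.mem_filter.2 ⟨hW i j m hm, hE i j m hm⟩
  obtain ⟨EX, hEX⟩ := exists_over_subgroup (MonoidHom.id G) H W'
    (fun w hw => (Finset.mem_filter.1 hw).2) E.mat hW'
  have hid : psh (ZMod p) (Fin E.n) (MonoidHom.id G) E.mat = E.mat := by
    ext i j g
    have := coeff_mapDomainRingHom (MonoidHom.id G) (E.mat i j) g (fun x _ hx => hx)
    rw [psh_apply]
    exact this
  rw [hid] at hEX
  have hEXi : EX * EX = EX := by
    apply psh_injective _ H.subtype H.subtype_injective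
    rw [map_mul, hEX, E.idem]
  obtain ⟨R, hR, hRE⟩ := exists_idem_lift (p := p) hdvd EX hEXi
  have h1 : trN p G n hn E = ∑ i, (R i i).coeff 1 := by
    rw [trN_eq hn E (psh _ _ H.subtype R) (by rw [← map_mul, hR]) E.mat E.mat E.idem
      (by rw [red_psh, hRE, hEX, E.idem])]
    refine Finset.sum_congr rfl fun i _ => ?_
    rw [psh_apply]
    have h4 := coeff_mapDomainRingHom H.subtype (R i i) 1 (fun x _ hx => H.subtype_injective hx)
    rw [map_one] at h4
    exact h4
  have h2 : (reg R).trace = (Fintype.card H : ZMod (p ^ n)) * trN p G n hn E := by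
    rw [reg_trace, h1]
  rw [← h2, trace_eq_rank hn hdvd (reg R) (by rw [← reg_mul, hR])]
  congr 1
  have h3 : (reg R).map (ZMod.castHom hdvd (ZMod p)) =
      (regS H E.mat).submatrix (Equiv.prodCongr (Equiv.refl (Fin E.n)) (Equiv.inv H))
        (Equiv.prodCongr (Equiv.refl (Fin E.n)) (Equiv.inv H)) := by
    ext ⟨i, x⟩ ⟨j, y⟩
    change ZMod.castHom hdvd (ZMod p) ((R i j).coeff (x⁻¹ * y)) =
      (E.mat i j).coeff (((x⁻¹ : H) : G) * ((y⁻¹ : H) : G)⁻¹)
    rw [← coeff_red, hRE, ← hEX, psh_apply]
    have h4 := coeff_mapDomainRingHom H.subtype (EX i j) (x⁻¹ * y)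
      (fun z _ hz => H.subtype_injective hz)
    rw [← h4]
    congr 1
    simp
  rw [h3, Matrix.rank_submatrix]

end Pool.Agent.H.MP_a22eb7_al
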