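import Pool.Agent.H.MP_a22eb7_al.helper16.Faithful
import Pool.Agent.H.MP_a22eb7_al.P.Restrict

set_option autoImplicit false

/-! Stable finiteness in characteristic `p` for monoids with sofic subgroups whose `K₀` comes from
their finite subgroups. -/

namespace Pool.Agent.H.MP_a22eb7_al

open MonoidAlgebra

universe u v w

section Push

variable {p : ℕ} [Fact p.Prime] {G : Type u} [Group G] {κ : Type v} [Fintype κ] [DecidableEq κ]

/-- An idempotent matrix all of whose lifts have trace zero at the identity vanishes. -/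
theorem eq_zero_of_sofic (hG : IsSofic G) (hK : K0FromFinite p G)
    (E : Matrix κ κ (MonoidAlgebra (ZMod (p ^ 1)) G)) (hE : E * E = E)
    (hT : ∀ (n : ℕ) (hn : 1 ≤ n), ∃ (κ' : Type v) (_ : Fintype κ') (_ : DecidableEq κ')
      (j : κ → κ') (F : Matrix κ' κ' (MonoidAlgebra (ZMod (p ^ n)) G)), Function.Injective j ∧
      F * F = F ∧ (∑ c, (F c c).coeff 1 = 0) ∧
      (∀ a b, red G κ' (pow_dvd_pow p hn) F (j a) (j b) = E a b) ∧
      (∀ c b, c ∉ Set.range j → red G κ' (pow_dvd_pow p hn) F c b = 0)) : E = 0 := by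
  classical
  let φ : ZMod (p ^ 1) →+* ZMod p := (ZMod.ringEquivCongr (pow_one p)).toRingHom
  have hφ : Function.Injective φ := (ZMod.ringEquivCongr (pow_one p)).injective
  let ψ : MonoidAlgebra (ZMod (p ^ 1)) G →+* MonoidAlgebra (ZMod p) G := mapRingHom G φ
  have hψ : Function.Injective ψ := mapRingHom_injective' φ hφ
  let e := Fintype.equivFin κ
  -- the idempotent matrix
  let E' : IdemMat (MonoidAlgebra (ZMod p) G) :=
    { n := Fintype.card κ
      mat := (E.map ψ).submatrix e.symm e.symm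
      idem := by
        rw [Matrix.submatrix_mul_equiv, ← Matrix.map_mul, hE] }
  have h0 : E'.mat = 0 := by
    apply eq_zero_of_trN hG hK
    intro n hn
    obtain ⟨κ', _, _, j, F, hj, hF, hFt, hFE, hF0⟩ := hT n hn
    rw [← hFt]
    have hdvd : p ∣ p ^ n := dvd_pow_of_one_le hn
    obtain ⟨P, hP⟩ : ∃ P, P = red G κ' (pow_dvd_pow p hn) F := ⟨_, rfl⟩
    have hPP : P * P = P := by rw [hP, ← map_mul, hF]
    obtain ⟨e1, e2⟩ := ext0_equiv hj E P hE hPP (fun a b => by rw [hP, hFE])
      (fun c b hc => by rw [hP, hF0 c b hc])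
    have hred : red G κ' hdvd F = P.map ψ := by
      ext c d g
      rw [coeff_red, Matrix.map_apply, hP]
      change _ = (mapRingHom G φ (red G κ' (pow_dvd_pow p hn) F c d)).coeff g
      rw [coeff_mapRingHom, coeff_red]
      have h1 : ZMod.castHom hdvd (ZMod p) =
          φ.comp (ZMod.castHom (pow_dvd_pow p hn) (ZMod (p ^ 1))) := Subsingleton.elim _ _
      rw [h1]
      rfl
    refine trN_eq hn E' F hF ((P.map ψ).submatrix (j ∘ e.symm) id)
      (((ext0 j E).map ψ).submatrix id (j ∘ e.symm)) ?_ ?_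
    · rw [← Matrix.submatrix_mul _ _ _ id _ Function.bijective_id, ← Matrix.map_mul, e1]
      ext1 a b
      change ψ (ext0 j E (j (e.symm a)) (j (e.symm b))) = ψ (E (e.symm a) (e.symm b))
      rw [ext0_apply hj]
    · rw [hred]
      ext1 c d
      conv_rhs => rw [← e2, Matrix.map_mul, Matrix.mul_apply]
      rw [Matrix.mul_apply]
      refine Fintype.sum_of_injective (j ∘ e.symm) (hj.comp e.symm.injective) _ _ ?_ ?_
      · intro c' hc'
        have hc2 : c' ∉ Set.range j := by
          rintro ⟨a, rfl⟩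
          exact hc' ⟨e a, by simp⟩
        rw [Matrix.map_apply, ext0_right _ _ hc2, map_zero, zero_mul]
      · intro a
        rfl
  ext1 a b
  have h1 := congrFun (congrFun h0 (e a)) (e b)
  apply hψ
  rw [Matrix.zero_apply, map_zero]
  have h2 : E'.mat (e a) (e b) = ψ (E a b) := by
    change ψ (E (e.symm (e a)) (e.symm (e b))) = _
    rw [Equiv.symm_apply_apply, Equiv.symm_apply_apply]
  rw [← h2, h1]
  rfl

/-- An idempotent matrix all of whose lifts are traceless vanishes. -/
theorem eq_zero_of_resid (hG : FullyResidually p G)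
    (E : Matrix κ κ (MonoidAlgebra (ZMod (p ^ 1)) G)) (hE : E * E = E)
    (hT : ∀ (n : ℕ) (hn : 1 ≤ n), ∃ (κ' : Type v) (_ : Fintype κ') (_ : DecidableEq κ')
      (j : κ → κ') (F : Matrix κ' κ' (MonoidAlgebra (ZMod (p ^ n)) G)), Function.Injective j ∧
      F * F = F ∧ (∀ N : Subgroup G, N.Normal →
        ∑ c, ind (ZMod (p ^ n)) (fun g => g ∈ N) (F c c) = 0) ∧
      (∀ a b, red G κ' (pow_dvd_pow p hn) F (j a) (j b) = E a b) ∧
      (∀ c b, c ∉ Set.range j → red G κ' (pow_dvd_pow p hn) F c b = 0)) : E = 0 := by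
  classical
  obtain ⟨W, -, hW⟩ := exists_support' E 1
  obtain ⟨N, hN, hNW, hNs, hNK⟩ := hG (quots W) (one_notMem_quots W)
  have hinj : ∀ i j (w : G), w ∈ W → ∀ x, (E i j).coeff x ≠ 0 →
      QuotientGroup.mk' N x = QuotientGroup.mk' N w → x = w := fun i j w hw x hx hxw =>
    inj_of_quots hNW (hW i j x hx) hw hxw
  -- it suffices that the push forward vanishes
  suffices h0 : psh _ κ (QuotientGroup.mk' N) E = 0 by
    ext i j x
    by_cases hx : (E i j).coeff x = 0
    · rw [hx]; simp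
    · rw [← coeff_mapDomainRingHom (QuotientGroup.mk' N) (E i j) x
        (hinj i j x (hW i j x hx)), ← psh_apply, h0]
      simp
  refine eq_zero_of_sofic (show IsSofic (G ⧸ N) from hNs) hNK _ (by rw [← map_mul, hE]) ?_
  intro n hn
  obtain ⟨κ', _, _, j, F, hj, hF, hFt, hFE, hF0⟩ := hT n hn
  refine ⟨κ', inferInstance, inferInstance, j, psh _ κ' (QuotientGroup.mk' N) F, hj,
    by rw [← map_mul, hF], ?_, ?_, ?_⟩
  · rw [← hFt N hN]
    refine Finset.sum_congr rfl fun c _ => ?_
    rw [psh_apply, ← ind_eq_one, ind_mapDomain]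
    congr 2
    ext g
    exact QuotientGroup.eq_one_iff g
  · intro a b
    rw [red_psh, psh_apply, psh_apply, hFE]
  · intro c b hc
    rw [red_psh, psh_apply, hF0 c b hc, map_zero]

end Push

section Main

variable {p : ℕ} [Fact p.Prime] {M : Type u} [Monoid M] {ι : Type v} [Fintype ι] [DecidableEq ι]

/-- Stable finiteness over `ℤ/p`. -/
theorem stablyFinite_prime_sofic (hM : Tame M)
    (hG : ∀ (G : Type u) [Group G] (f : G →ₙ* M), Function.Injective f →
      FullyResidually p G)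
    (A B : Matrix ι ι (MonoidAlgebra (ZMod (p ^ 1)) M)) (hAB : A * B = 1) : B * A = 1 := by
  classical
  by_contra hne
  obtain ⟨F, hFdef⟩ : ∃ F, F = 1 - B * A := ⟨_, rfl⟩
  have hF : F * F = F := by rw [hFdef]; exact idem_one_sub hAB
  have hF0 : F ≠ 0 := by
    intro h0
    rw [hFdef] at h0
    exact hne (sub_eq_zero.1 h0).symm
  obtain ⟨T, hT⟩ := exists_support F
  obtain ⟨x₀, hx₀⟩ : ∃ x, x ∈ T := by
    by_contra hcon
    push Not at hcon
    apply hF0
    ext i j m
    by_contra hm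
    exact hcon m ((hT m).2 ⟨i, j, hm⟩)
  obtain ⟨e, s₀, he, hs₀, -, hes₀, -, hmax⟩ := exists_class hM T (support_factor F hF T hT) hx₀
  obtain ⟨G, _, ⟨L⟩⟩ := exists_localGroup hM he
  obtain ⟨u, v, hfac⟩ := exists_factor_global he
  have hgood := hG G ⟨L.emb, L.emb_mul⟩ L.emb_inj
  set S : Finset M := T.filter (fun m => JLE e m) with hSdef
  have hmemS : ∀ m, m ∈ S ↔ m ∈ T ∧ JLE e m := fun m => by rw [hSdef, Finset.mem_filter]
  have hf := hfac S (fun m hm => hmax m ((hmemS m).1 hm).1 ((hmemS m).1 hm).2)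
  have hST : ∀ m ∈ T, JLE e m → m ∈ S := fun m hm h => (hmemS m).2 ⟨hm, h⟩
  have hTS : S ⊆ T := fun m hm => ((hmemS m).1 hm).1
  have hT' : ∀ i j m, (F i j).coeff m ≠ 0 → m ∈ T := fun i j m hm => (hT m).2 ⟨i, j, hm⟩
  have hE : L.cm _ u v S F * L.cm _ u v S F = L.cm _ u v S F :=
    L.cm_mul_self _ hf hST hTS F hF hT'
  have hE0 : L.cm _ u v S F = 0 := by
    refine eq_zero_of_resid hgood _ hE ?_
    intro n hn
    have hdvd : p ^ 1 ∣ p ^ n := pow_dvd_pow p hn
    obtain ⟨A', B', hA', hB', hAB'⟩ := exists_lift_inverse (red M ι hdvd)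
      (fun x hx => red_nil p le_rfl hdvd x hx) (red_surjective hdvd) hAB
    obtain ⟨F', hFdef'⟩ : ∃ F', F' = 1 - B' * A' := ⟨_, rfl⟩
    have hF' : F' * F' = F' := by rw [hFdef']; exact idem_one_sub hAB'
    have hFF' : red M ι hdvd F' = F := by
      rw [hFdef', map_sub, map_mul, map_one, hA', hB', hFdef]
    obtain ⟨T₂, hT₂⟩ := exists_support F'
    let T' : Finset M := T₂ ∪ T
    let S' : Finset M := T'.filter (fun m => JLE e m)
    have hmemS' : ∀ m, m ∈ S' ↔ m ∈ T' ∧ JLE e m := fun m => by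
      simp only [S', Finset.mem_filter]
    have hT'T : T ⊆ T' := Finset.subset_union_right
    have hSS' : ∀ m, m ∈ S → m ∈ S' := fun m hm =>
      (hmemS' m).2 ⟨hT'T ((hmemS m).1 hm).1, ((hmemS m).1 hm).2⟩
    have hle : ∀ m ∈ S', JLE m e := by
      intro m hm
      obtain ⟨h1, h2⟩ := (hmemS' m).1 hm
      rcases Finset.mem_union.1 h1 with h3 | h3
      · obtain ⟨s, hs, hms⟩ := support_below hM hdvd F' hF' T₂ T hT₂
          (fun i j m hm => hT' i j m (by rwa [hFF'] at hm)) h3
        exact hms.trans (hmax s hs (h2.trans hms))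
      · exact hmax m h3 h2
    have hf' := hfac S' hle
    have hST' : ∀ m ∈ T', JLE e m → m ∈ S' := fun m hm h => (hmemS' m).2 ⟨hm, h⟩
    have hTS' : S' ⊆ T' := fun m hm => ((hmemS' m).1 hm).1
    have hT₂' : ∀ i j m, (F' i j).coeff m ≠ 0 → m ∈ T' := fun i j m hm =>
      Finset.mem_union_left _ ((hT₂ m).2 ⟨i, j, hm⟩)
    refine ⟨S' × ι, inferInstance, inferInstance, fun a => (⟨a.1.1, hSS' _ a.1.2⟩, a.2),
      L.cm _ u v S' F', ?_, L.cm_mul_self _ hf' hST' hTS' F' hF' hT₂', ?_, ?_, ?_⟩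
    · rintro ⟨⟨a, ha⟩, i⟩ ⟨⟨b, hb⟩, j⟩ hab
      simp only [Prod.mk.injEq, Subtype.mk.injEq] at hab ⊢
      exact hab
    · intro N hN
      have h1 := L.trace_cm (ZMod (p ^ n)) hf' hST' hTS' (N := (N : Set G))
        (fun g h hgh => hN.mem_comm hgh) F' hT₂'
      rw [hF', hFdef', trace_one_sub hAB' _ (L.SE_comm)] at h1
      rw [← hFdef'] at h1
      exact h1
    · intro a b
      rw [L.red_cm, hFF']
      rfl
    · intro c b hc
      rw [L.red_cm, hFF']
      refine Finset.sum_eq_zero fun k _ => ?_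
      have h1 : (F c.2 k).coeff c.1.1 = 0 := by
        by_contra h2
        apply hc
        exact ⟨(⟨c.1.1, (hmemS _).2 ⟨hT' _ _ _ h2, ((hmemS' _).1 c.1.2).2⟩⟩, c.2), rfl⟩
      rw [h1, zero_smul]
  obtain ⟨i, j, hij⟩ := (hT s₀).1 hs₀
  exact hij (L.coeff_eq_zero_of_cm _ hf hST F hF hT' hE0 hes₀ i j)

/-- Stable finiteness over the prime field. -/
theorem stablyFinite_zmod_sofic (hM : Tame M)
    (hG : ∀ (G : Type u) [Group G] (f : G →ₙ* M), Function.Injective f →
      FullyResidually p G)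
    (A B : Matrix ι ι (MonoidAlgebra (ZMod p) M)) (hAB : A * B = 1) : B * A = 1 := by
  let f : ZMod p →+* ZMod (p ^ 1) := (ZMod.ringEquivCongr (pow_one p).symm).toRingHom
  apply mapMatrix_injective' f (ZMod.ringEquivCongr (pow_one p).symm).injective
  rw [map_mul, map_one]
  apply stablyFinite_prime_sofic hM hG
  rw [← map_mul, hAB, map_one]

/-- Stable finiteness in characteristic `p`. -/
theorem stablyFinite_charP_sofic (hM : Tame M)
    (hG : ∀ (G : Type u) [Group G] (f : G →ₙ* M), Function.Injective f →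
      FullyResidually p G)
    {K : Type w} [Field K] [CharP K p] (A B : Matrix ι ι (MonoidAlgebra K M))
    (hAB : A * B = 1) : B * A = 1 := by
  classical
  by_contra hBA
  let _ : Algebra (ZMod p) K := ZMod.algebra K p
  obtain ⟨k', _, _, hfin, A', B', h1, h2⟩ := exists_specialization (ZMod p) A B hAB hBA
  let b := Module.finBasis (ZMod p) k'
  let Φ : Matrix ι ι (MonoidAlgebra k' M) →+*
      Matrix (ι × Fin (Module.finrank (ZMod p) k')) (ι × Fin (Module.finrank (ZMod p) k'))
        (MonoidAlgebra (ZMod p) M) :=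
    (Matrix.compRingEquiv ι (Fin (Module.finrank (ZMod p) k'))
      (MonoidAlgebra (ZMod p) M)).toRingHom.comp (resScalars b M).mapMatrix
  have hΦ : Function.Injective Φ := by
    intro X Y hXY
    have h3 : (resScalars b M).mapMatrix X = (resScalars b M).mapMatrix Y :=
      (Matrix.compRingEquiv ι (Fin (Module.finrank (ZMod p) k'))
        (MonoidAlgebra (ZMod p) M)).injective hXY
    ext1 i j
    exact resScalars_injective b M (congrFun (congrFun h3 i) j)
  apply h2
  apply hΦ
  rw [map_mul, map_one]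
  apply stablyFinite_zmod_sofic hM hG
  rw [← map_mul, h1, map_one]

end Main

end Pool.Agent.H.MP_a22eb7_al
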