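import Mathlib

set_option autoImplicit false

/-! The Grothendieck group `K₀` of a ring, defined through idempotent matrices. -/

namespace Pool.Agent.H.MP_a22eb7_al

universe u v

/-- A square idempotent matrix over the ring `R`. -/
structure IdemMat (R : Type u) [Ring R] where
  /-- the size -/
  n : ℕ
  /-- the matrix -/
  mat : Matrix (Fin n) (Fin n) R
  /-- it is idempotent -/
  idem : mat * mat = mat

namespace IdemMat

variable {R : Type u} [Ring R]

/-- The block sum of two idempotent matrices. -/
def dsum (E E' : IdemMat R) : IdemMat R where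
  n := E.n + E'.n
  mat := (Matrix.fromBlocks E.mat 0 0 E'.mat).submatrix finSumFinEquiv.symm finSumFinEquiv.symm
  idem := by
    rw [Matrix.submatrix_mul_equiv, Matrix.fromBlocks_multiply]
    simp [E.idem, E'.idem]

/-- `E = XY` and `E' = YX` for (rectangular) matrices `X`, `Y`; equivalently, the projective modules
defined by `E` and `E'` are isomorphic. -/
def Equivalent (E E' : IdemMat R) : Prop :=
  ∃ (X : Matrix (Fin E.n) (Fin E'.n) R) (Y : Matrix (Fin E'.n) (Fin E.n) R),
    X * Y = E.mat ∧ Y * X = E'.mat

end IdemMat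

/-- The relations of the Grothendieck group: `[E] = [E']` for equivalent `E`, `E'`, and
`[E ⊕ E'] = [E] + [E']`. -/
def k0Relations (R : Type u) [Ring R] : AddSubgroup (FreeAbelianGroup (IdemMat R)) :=
  AddSubgroup.closure
    ({x | ∃ E E' : IdemMat R, E.Equivalent E' ∧
        x = FreeAbelianGroup.of E - FreeAbelianGroup.of E'} ∪
      {x | ∃ E E' : IdemMat R, x = FreeAbelianGroup.of (E.dsum E') -
        (FreeAbelianGroup.of E + FreeAbelianGroup.of E')})

/-- The Grothendieck group `K₀(R)`. -/
abbrev K0 (R : Type u) [Ring R] : Type u := FreeAbelianGroup (IdemMat R) ⧸ k0Relations R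

namespace K0

variable {R : Type u} [Ring R]

/-- The class of an idempotent matrix. -/
def cls (E : IdemMat R) : K0 R := QuotientAddGroup.mk (FreeAbelianGroup.of E)

/-- Homomorphisms from `K₀(R)`. -/
def lift {A : Type v} [AddCommGroup A] (f : IdemMat R → A)
    (h1 : ∀ E E' : IdemMat R, E.Equivalent E' → f E = f E')
    (h2 : ∀ E E' : IdemMat R, f (E.dsum E') = f E + f E') : K0 R →+ A :=
  QuotientAddGroup.lift (k0Relations R) (FreeAbelianGroup.lift f) (by
    rw [k0Relations, AddSubgroup.closure_le]
    rintro x (⟨E, E', h, rfl⟩ | ⟨E, E', rfl⟩)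
    · change FreeAbelianGroup.lift f _ = 0
      rw [map_sub, FreeAbelianGroup.lift_apply_of, FreeAbelianGroup.lift_apply_of, h1 E E' h,
        sub_self]
    · change FreeAbelianGroup.lift f _ = 0
      rw [map_sub, map_add, FreeAbelianGroup.lift_apply_of, FreeAbelianGroup.lift_apply_of,
        FreeAbelianGroup.lift_apply_of, h2 E E', sub_self])

theorem lift_cls {A : Type v} [AddCommGroup A] (f : IdemMat R → A)
    (h1 : ∀ E E' : IdemMat R, E.Equivalent E' → f E = f E')
    (h2 : ∀ E E' : IdemMat R, f (E.dsum E') = f E + f E') (E : IdemMat R) :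
    lift f h1 h2 (cls E) = f E := by
  change FreeAbelianGroup.lift f (FreeAbelianGroup.of E) = f E
  rw [FreeAbelianGroup.lift_apply_of]

end K0

/-- The subgroup of `K₀(𝔽_p[G])` generated by the classes of idempotent matrices whose entries are
supported in a finite subgroup of `G`, i.e. of projective modules induced from finite subgroups. -/
noncomputable def finiteClasses (p : ℕ) (G : Type u) [Group G] :
    AddSubgroup (K0 (MonoidAlgebra (ZMod p) G)) :=
  AddSubgroup.closure {x | ∃ (E : IdemMat (MonoidAlgebra (ZMod p) G)) (H : Subgroup G),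
    Finite H ∧ (∀ i j g, (E.mat i j).coeff g ≠ 0 → g ∈ H) ∧ x = K0.cls E}

/-- The group `K₀(𝔽_p[G])` is rationally generated by the finite subgroups of `G`: each of its
elements has a positive multiple in `finiteClasses p G`. -/
def K0FromFinite (p : ℕ) (G : Type u) [Group G] : Prop :=
  ∀ x : K0 (MonoidAlgebra (ZMod p) G), ∃ m : ℕ, 0 < m ∧ m • x ∈ finiteClasses p G

/-- Sofic groups: finite subsets of `G` have approximate free actions on finite sets. -/
def SoficGroup (G : Type u) [Group G] : Prop :=
  ∀ (F : Finset G) (ε : ℝ), 0 < ε → ∃ (N : ℕ) (σ : G → Equiv.Perm (Fin N)), 0 < N ∧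
    (∀ g ∈ F, ∀ h ∈ F,
      ((Finset.univ.filter fun x => σ (g * h) x ≠ σ g (σ h x)).card : ℝ) ≤ ε * N) ∧
    (∀ g ∈ F, g ≠ 1 → ((Finset.univ.filter fun x => σ g x = x).card : ℝ) ≤ ε * N)

/-- The group `G` is fully residually (sofic with `K₀` rationally generated by finite subgroups):
every finite set of nonidentity elements is avoided by a normal subgroup `N` such that `G/N` is
sofic and `K₀(𝔽_p[G/N])` is rationally generated by the finite subgroups of `G/N`. -/
def FullyResidually (p : ℕ) (G : Type u) [Group G] : Prop :=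
  ∀ W : Finset G, 1 ∉ W → ∃ (N : Subgroup G) (_ : N.Normal), (∀ w ∈ W, w ∉ N) ∧
    SoficGroup (G ⧸ N) ∧ K0FromFinite p (G ⧸ N)

end Pool.Agent.H.MP_a22eb7_al
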