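import Mathlib

set_option autoImplicit false

/-! Linear algebra: ranks of matrices over a field. -/

namespace Pool.Agent.H.MP_a22eb7_al.RankLin

variable {K : Type*} [Field K]

theorem rank_add_le {ι κ : Type*} [Fintype ι] [Fintype κ] (A B : Matrix ι κ K) :
    (A + B).rank ≤ A.rank + B.rank := by
  unfold Matrix.rank
  have h1 : LinearMap.range (A + B).mulVecLin ≤
      LinearMap.range A.mulVecLin ⊔ LinearMap.range B.mulVecLin := by
    rintro _ ⟨v, rfl⟩
    rw [Matrix.mulVecLin_apply, Matrix.add_mulVec]
    exact Submodule.add_mem_sup ⟨v, rfl⟩ ⟨v, rfl⟩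
  exact (Submodule.finrank_mono h1).trans (Submodule.finrank_add_le_finrank_add_finrank _ _)

theorem rank_le_cols {ι κ : Type*} [Fintype ι] [Fintype κ] (M : Matrix ι κ K)
    (T : Finset κ) (h : ∀ j, j ∉ T → ∀ i, M i j = 0) : M.rank ≤ T.card := by
  classical
  rw [Matrix.rank_eq_finrank_span_cols]
  have h1 : Submodule.span K (Set.range M.col) ≤
      Submodule.span K ((T.image M.col : Finset (ι → K)) : Set (ι → K)) := by
    rw [Submodule.span_le]
    rintro _ ⟨j, rfl⟩
    by_cases hj : j ∈ T
    · exact Submodule.subset_span (by simpa using ⟨j, hj, rfl⟩)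
    · have : M.col j = 0 := by
        funext i
        exact h j hj i
      rw [this]
      exact Submodule.zero_mem _
  calc _ ≤ _ := Submodule.finrank_mono h1
    _ ≤ (T.image M.col).card := finrank_span_finset_le_card _
    _ ≤ T.card := Finset.card_image_le

/-- Changing the columns in `T` changes the rank by at most `|T|`. -/
theorem rank_le_of_cols {ι κ : Type*} [Fintype ι] [Fintype κ] (A B : Matrix ι κ K)
    (T : Finset κ) (h : ∀ j, j ∉ T → ∀ i, A i j = B i j) : A.rank ≤ B.rank + T.card := by
  have h1 := rank_add_le B (A - B)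
  rw [add_sub_cancel] at h1
  refine h1.trans (Nat.add_le_add_left (rank_le_cols (A - B) T ?_) _)
  intro j hj i
  rw [Matrix.sub_apply, h j hj i, sub_self]

theorem le_rank {ι κ γ : Type*} [Fintype ι] [Fintype κ] [Fintype γ] [DecidableEq γ]
    (M : Matrix ι κ K) (r : γ → ι) (e : γ → κ) (c : K) (hc : c ≠ 0)
    (h : ∀ y z, M (r y) (e z) = if y = z then c else 0) : Fintype.card γ ≤ M.rank := by
  rw [Matrix.rank_eq_finrank_span_cols]
  have h1 : LinearIndependent K (fun z => M.col (e z)) := by
    rw [Fintype.linearIndependent_iff]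
    intro a ha y
    have := congrFun ha (r y)
    simp only [Finset.sum_apply, Pi.smul_apply, Matrix.col_apply, h, smul_eq_mul, mul_ite, mul_zero,
      Finset.sum_ite_eq, Finset.mem_univ, if_true, Pi.zero_apply] at this
    exact (mul_eq_zero.mp this).resolve_right hc
  rw [← finrank_span_eq_card h1]
  apply Submodule.finrank_mono
  apply Submodule.span_mono
  rintro _ ⟨z, rfl⟩
  exact ⟨e z, rfl⟩

theorem rank_add_nullity {κ : Type*} [Fintype κ] (A : Matrix κ κ K) :
    A.rank + Module.finrank K (LinearMap.ker A.mulVecLin) = Fintype.card κ := by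
  have h := LinearMap.finrank_range_add_finrank_ker A.mulVecLin
  rwa [Module.finrank_fintype_fun_eq_card] at h

theorem rank_fromBlocks {ι κ : Type*} [Fintype ι] [Fintype κ]
    (A : Matrix ι ι K) (D : Matrix κ κ K) :
    (Matrix.fromBlocks A 0 0 D).rank = A.rank + D.rank := by
  have h1 := rank_add_nullity A
  have h2 := rank_add_nullity D
  have h3 := rank_add_nullity (Matrix.fromBlocks A 0 0 D)
  rw [Fintype.card_sum] at h3
  have key : ∀ v : ι ⊕ κ → K, (Matrix.fromBlocks A 0 0 D).mulVec v =
      Sum.elim (A.mulVec (v ∘ Sum.inl)) (D.mulVec (v ∘ Sum.inr)) := by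
    intro v
    rw [Matrix.fromBlocks_mulVec]
    simp
  let e : LinearMap.ker (Matrix.fromBlocks A 0 0 D).mulVecLin ≃ₗ[K]
      (LinearMap.ker A.mulVecLin) × (LinearMap.ker D.mulVecLin) :=
    { toFun := fun v => (⟨v.1 ∘ Sum.inl, by
          have h := v.2
          rw [LinearMap.mem_ker, Matrix.mulVecLin_apply, key] at h
          rw [LinearMap.mem_ker, Matrix.mulVecLin_apply]
          funext i
          exact congrFun h (Sum.inl i)⟩, ⟨v.1 ∘ Sum.inr, by
          have h := v.2
          rw [LinearMap.mem_ker, Matrix.mulVecLin_apply, key] at h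
          rw [LinearMap.mem_ker, Matrix.mulVecLin_apply]
          funext i
          exact congrFun h (Sum.inr i)⟩)
      invFun := fun w => ⟨Sum.elim w.1.1 w.2.1, by
          have h := w.1.2
          have h' := w.2.2
          rw [LinearMap.mem_ker, Matrix.mulVecLin_apply] at h h' ⊢
          rw [key, Sum.elim_comp_inl, Sum.elim_comp_inr, h, h']
          funext i
          rcases i with i | i <;> rfl⟩
      map_add' := fun v w => rfl
      map_smul' := fun c v => rfl
      left_inv := fun v => by
        apply Subtype.ext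
        funext i
        rcases i with i | i <;> rfl
      right_inv := fun w => rfl }
  have h4 := e.finrank_eq
  rw [Module.finrank_prod] at h4
  omega

theorem rank_blockDiagonal {κ Ω : Type*} [Fintype κ] [Fintype Ω] [DecidableEq Ω]
    (A : Matrix κ κ K) :
    (Matrix.blockDiagonal fun _ : Ω => A).rank = Fintype.card Ω * A.rank := by
  have h1 := rank_add_nullity A
  have h3 := rank_add_nullity (Matrix.blockDiagonal fun _ : Ω => A)
  rw [Fintype.card_prod] at h3
  have key : ∀ (v : κ × Ω → K) (k : κ) (o : Ω),
      (Matrix.blockDiagonal fun _ : Ω => A).mulVec v (k, o) = A.mulVec (fun k => v (k, o)) k := by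
    intro v k o
    rw [Matrix.mulVec, dotProduct, Fintype.sum_prod_type]
    rw [Matrix.mulVec, dotProduct]
    refine Finset.sum_congr rfl fun k' _ => ?_
    rw [Finset.sum_eq_single o]
    · rw [Matrix.blockDiagonal_apply, if_pos rfl]
    · intro o' _ ho'
      rw [Matrix.blockDiagonal_apply, if_neg (Ne.symm ho'), zero_mul]
    · intro h
      exact absurd (Finset.mem_univ o) h
  let e : LinearMap.ker (Matrix.blockDiagonal fun _ : Ω => A).mulVecLin ≃ₗ[K]
      (Ω → LinearMap.ker A.mulVecLin) :=
    { toFun := fun v o => ⟨fun k => v.1 (k, o), by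
          have h := v.2
          rw [LinearMap.mem_ker, Matrix.mulVecLin_apply] at h ⊢
          funext k
          rw [← key, h]
          rfl⟩
      invFun := fun w => ⟨fun x => (w x.2).1 x.1, by
          rw [LinearMap.mem_ker, Matrix.mulVecLin_apply]
          funext x
          obtain ⟨k, o⟩ := x
          rw [key]
          have h := (w o).2
          rw [LinearMap.mem_ker, Matrix.mulVecLin_apply] at h
          exact congrFun h k⟩
      map_add' := fun v w => rfl
      map_smul' := fun c v => rfl
      left_inv := fun v => rfl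
      right_inv := fun w => rfl }
  have h4 := e.finrank_eq
  rw [Module.finrank_pi_fintype, Finset.sum_const, Finset.card_univ, smul_eq_mul] at h4
  have h5 : Fintype.card κ * Fintype.card Ω =
      Fintype.card Ω * A.rank + Fintype.card Ω * Module.finrank K (LinearMap.ker A.mulVecLin) := by
    rw [← mul_add, h1, mul_comm]
  omega

/-- A large subset of `D` without relations, where each element is related to at most `m` others. -/
theorem exists_indep {V : Type*} [DecidableEq V] (D : Finset V) (ex : V → Finset V) (m : ℕ)
    (hm : ∀ y, (ex y).card ≤ m) (hs : ∀ y z, z ∈ ex y → y ∈ ex z) :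
    ∃ Y ⊆ D, (∀ y ∈ Y, ∀ z ∈ Y, y ≠ z → z ∉ ex y) ∧ D.card ≤ (m + 1) * Y.card := by
  induction' hn : D.card using Nat.strong_induction_on with n ih generalizing D
  rcases D.eq_empty_or_nonempty with rfl | ⟨y, hy⟩
  · exact ⟨∅, by simp, by simp, by simp at hn; omega⟩
  have h1 : ((D.erase y) \ ex y).card < n := by
    rw [← hn]
    calc _ ≤ (D.erase y).card := Finset.card_le_card Finset.sdiff_subset
      _ < D.card := Finset.card_erase_lt_of_mem hy
  obtain ⟨Y, hY1, hY2, hY3⟩ := ih _ h1 _ rfl
  have hyY : y ∉ Y := fun h => by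
    have := hY1 h
    simp at this
  refine ⟨insert y Y, ?_, ?_, ?_⟩
  · intro z hz
    rcases Finset.mem_insert.mp hz with rfl | hz
    · exact hy
    · exact Finset.mem_of_mem_erase (Finset.mem_sdiff.mp (hY1 hz)).1
  · intro a ha b hb hab
    rcases Finset.mem_insert.mp ha with ha' | ha'
    · rcases Finset.mem_insert.mp hb with hb' | hb'
      · exact absurd (ha'.trans hb'.symm) hab
      · rw [ha']
        exact (Finset.mem_sdiff.mp (hY1 hb')).2
    · rcases Finset.mem_insert.mp hb with hb' | hb'
      · intro h
        rw [hb'] at h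
        exact (Finset.mem_sdiff.mp (hY1 ha')).2 (hs _ _ h)
      · exact hY2 a ha' b hb' hab
  · rw [Finset.card_insert_of_notMem hyY]
    have h4 : D.card ≤ ((D.erase y) \ ex y).card + (ex y).card + 1 := by
      have : D ⊆ insert y (((D.erase y) \ ex y) ∪ ex y) := by
        intro z hz
        by_cases hzy : z = y
        · simp [hzy]
        · by_cases hz2 : z ∈ ex y
          · simp [hz2]
          · simp [hz, hzy, hz2]
      calc D.card ≤ _ := Finset.card_le_card this
        _ ≤ (((D.erase y) \ ex y) ∪ ex y).card + 1 := Finset.card_insert_le _ _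
        _ ≤ _ := by
          have := Finset.card_union_le ((D.erase y) \ ex y) (ex y)
          omega
    have h5 := hm y
    have h6 : (m + 1) * (Y.card + 1) = (m + 1) * Y.card + m + 1 := by ring
    omega

end Pool.Agent.H.MP_a22eb7_al.RankLin
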