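import Pool.Agent.H.MP_a22eb7_al.helper16.K0
import Pool.Agent.H.MP_a22eb7_al.P.Push

set_option autoImplicit false

/-! The `p`-adic Kaplansky trace as a homomorphism `K₀(𝔽_p[G]) → ℤ/pⁿ`. -/

namespace Pool.Agent.H.MP_a22eb7_al

open MonoidAlgebra

universe u v

section Ring

variable {R S : Type*} [Ring R] [Ring S] (π : R →+* S)

/-- Equality of traces of idempotents which are equivalent modulo a nil kernel. -/
theorem trace_eq_of_mvn (hπ : ∀ x, π x = 0 → IsNilpotent x) {T : Type*} (τ : R → T)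
    (hτ : ∀ x y, τ (x * y) = τ (y * x)) {e f : R} (he : e * e = e) (hf : f * f = f) {x y : R}
    (h1 : π (x * y) = π e) (h2 : π (y * x) = π f) : τ e = τ f := by
  have he' : π e * π e = π e := by rw [← map_mul, he]
  have hf' : π f * π f = π f := by rw [← map_mul, hf]
  rw [map_mul] at h1 h2
  obtain ⟨a, ha⟩ : ∃ a, a = e * x * f := ⟨_, rfl⟩
  obtain ⟨b, hb⟩ : ∃ b, b = f * y * e := ⟨_, rfl⟩
  have hea : e * a = a := by rw [ha, ← mul_assoc, ← mul_assoc, he]
  have haf : a * f = a := by rw [ha, mul_assoc, hf]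
  have hfb : f * b = b := by rw [hb, ← mul_assoc, ← mul_assoc, hf]
  have hbe : b * e = b := by rw [hb, mul_assoc, he]
  -- π (a b) = π e
  have hab : π (a * b) = π e := by
    rw [ha, hb]
    simp only [map_mul]
    calc π e * π x * π f * (π f * π y * π e)
        = π e * π x * (π f * π f) * π y * π e := by simp only [mul_assoc]
      _ = π e * π x * (π y * π x) * π y * π e := by rw [hf', h2]
      _ = π e * (π x * π y) * (π x * π y) * π e := by simp only [mul_assoc]
      _ = π e := by rw [h1, he', he', he']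
  have hba : π (b * a) = π f := by
    rw [ha, hb]
    simp only [map_mul]
    calc π f * π y * π e * (π e * π x * π f)
        = π f * π y * (π e * π e) * π x * π f := by simp only [mul_assoc]
      _ = π f * π y * (π x * π y) * π x * π f := by rw [he', h1]
      _ = π f * (π y * π x) * (π y * π x) * π f := by simp only [mul_assoc]
      _ = π f := by rw [h2, hf', hf', hf']
  obtain ⟨u, hu⟩ : ∃ u, u = e - a * b := ⟨_, rfl⟩
  have heu : e * u = u := by rw [hu, mul_sub, he, ← mul_assoc, hea]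
  have hue : u * e = u := by rw [hu, sub_mul, he, mul_assoc, hbe]
  have hun : IsNilpotent u := hπ _ (by rw [hu, map_sub, hab, sub_self])
  obtain ⟨w, hw⟩ := hun.isUnit_one_sub
  have hew : e * ↑w⁻¹ = ↑w⁻¹ * e := by
    have h3 : e * (↑w : R) = ↑w * e := by
      rw [hw, mul_sub, sub_mul, mul_one, one_mul, heu, hue]
    calc e * ↑w⁻¹ = ↑w⁻¹ * (↑w * e) * ↑w⁻¹ := by rw [← mul_assoc, Units.inv_mul, one_mul]
      _ = ↑w⁻¹ * (e * ↑w) * ↑w⁻¹ := by rw [h3]
      _ = ↑w⁻¹ * e := by rw [mul_assoc, mul_assoc, Units.mul_inv, mul_one]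
  have habw : a * b * ↑w⁻¹ = e := by
    have h3 : a * b = ↑w * e := by
      rw [hw, sub_mul, one_mul, hue, hu]
      abel
    rw [h3, mul_assoc, hew, ← mul_assoc, Units.mul_inv, one_mul]
  obtain ⟨c, hc⟩ : ∃ c, c = b * ↑w⁻¹ := ⟨_, rfl⟩
  have hac : a * c = e := by rw [hc, ← mul_assoc, habw]
  have hfc : f * c = c := by rw [hc, ← mul_assoc, hfb]
  have hca : c * a * (c * a) = c * a := by
    calc c * a * (c * a) = c * (a * c) * a := by simp only [mul_assoc]
      _ = c * a := by rw [hac, mul_assoc, hea]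
  have hπw : π ↑w⁻¹ = 1 := by
    have h3 : π (↑w : R) = 1 := by
      rw [hw, map_sub, map_one, hu, map_sub, hab, sub_self, sub_zero]
    calc π ↑w⁻¹ = π ↑w⁻¹ * π (↑w : R) := by rw [h3, mul_one]
      _ = 1 := by rw [← map_mul, Units.inv_mul, map_one]
  have hπca : π (c * a) = π f := by
    rw [hc, mul_assoc, map_mul, map_mul, hπw, one_mul, ← map_mul, hba]
  have hfca : f - c * a = 0 := by
    refine eq_zero_of_idem_nilKer π hπ ?_ (by rw [map_sub, hπca, sub_self])
    have h3 : f * (c * a) = c * a := by rw [← mul_assoc, hfc]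
    have h4 : c * a * f = c * a := by rw [mul_assoc, haf]
    rw [sub_mul, mul_sub, mul_sub, hf, h3, h4, hca]
    abel
  rw [← hac, hτ, ← sub_eq_zero.1 hfca]

end Ring

section ZMod

variable {p : ℕ} [hp : Fact p.Prime] {G : Type*} [Group G]

theorem dvd_pow_of_one_le {n : ℕ} (hn : 1 ≤ n) : p ∣ p ^ n := dvd_pow_self p (by omega)

/-- the kernel of the reduction modulo `p` is nil -/
theorem red_nil_one {ι : Type*} [Fintype ι] [DecidableEq ι] {n : ℕ} (h : p ∣ p ^ n)
    (x : Matrix ι ι (MonoidAlgebra (ZMod (p ^ n)) G)) (hx : red G ι h x = 0) :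
    IsNilpotent x := by
  have hdvd : p ^ 1 ∣ p ^ n := by rwa [pow_one]
  refine red_nil p le_rfl hdvd x ?_
  ext i j g
  rw [coeff_red]
  have h1 : (red G ι h x i j).coeff g = 0 := by rw [hx]; simp
  rw [coeff_red] at h1
  have h4 : (((x i j).coeff g).val : ZMod (p ^ n)) = (x i j).coeff g := ZMod.natCast_zmod_val _
  rw [← h4, map_natCast, ZMod.natCast_eq_zero_iff] at h1
  rw [← h4, map_natCast]
  simp only [Matrix.zero_apply, coeff_zero, Finsupp.coe_zero, Pi.zero_apply]
  rw [ZMod.natCast_eq_zero_iff, pow_one]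
  exact h1

/-- idempotents lift -/
theorem exists_idem_lift {ι : Type*} [Fintype ι] [DecidableEq ι] {n : ℕ} (h : p ∣ p ^ n)
    (E : Matrix ι ι (MonoidAlgebra (ZMod p) G)) (hE : E * E = E) :
    ∃ R : Matrix ι ι (MonoidAlgebra (ZMod (p ^ n)) G), R * R = R ∧ red G ι h R = E :=
  exists_isIdempotentElem_eq_of_ker_isNilpotent (red G ι h)
    (fun x hx => red_nil_one h x hx) E (red_surjective h E) hE

/-- Two idempotent matrices over `(ℤ/pⁿ)[G]` whose reductions are equivalent have the same trace at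
the identity. -/
theorem trace_mvn {ι κ : Type*} [Fintype ι] [DecidableEq ι] [Fintype κ] [DecidableEq κ] {n : ℕ}
    (h : p ∣ p ^ n) (E : Matrix ι ι (MonoidAlgebra (ZMod (p ^ n)) G))
    (F : Matrix κ κ (MonoidAlgebra (ZMod (p ^ n)) G)) (hE : E * E = E) (hF : F * F = F)
    (X : Matrix ι κ (MonoidAlgebra (ZMod p) G)) (Y : Matrix κ ι (MonoidAlgebra (ZMod p) G))
    (h1 : X * Y = red G ι h E) (h2 : Y * X = red G κ h F) :
    ∑ i, (E i i).coeff 1 = ∑ k, (F k k).coeff 1 := by
  have hl : ∀ z : MonoidAlgebra (ZMod p) G, ∃ w, mapRingHom G (ZMod.castHom h (ZMod p)) w = z :=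
    mapRingHom_surjective' _ (ZMod.castHom_surjective h)
  choose l hl using hl
  have hX : (X.map l).map (mapRingHom G (ZMod.castHom h (ZMod p))) = X := by
    ext1 i j
    exact hl _
  have hY : (Y.map l).map (mapRingHom G (ZMod.castHom h (ZMod p))) = Y := by
    ext1 i j
    exact hl _
  have hmap : ∀ (A : Matrix ι ι (MonoidAlgebra (ZMod (p ^ n)) G))
      (B : Matrix ι κ (MonoidAlgebra (ZMod (p ^ n)) G))
      (C : Matrix κ ι (MonoidAlgebra (ZMod (p ^ n)) G))
      (D : Matrix κ κ (MonoidAlgebra (ZMod (p ^ n)) G)),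
      red G (ι ⊕ κ) h (Matrix.fromBlocks A B C D) =
        Matrix.fromBlocks (red G ι h A) (B.map (mapRingHom G (ZMod.castHom h (ZMod p))))
          (C.map (mapRingHom G (ZMod.castHom h (ZMod p)))) (red G κ h D) := by
    intro A B C D
    simp only [red, RingHom.mapMatrix_apply]
    rw [Matrix.fromBlocks_map]
  have key := trace_eq_of_mvn (red G (ι ⊕ κ) h) (fun x hx => red_nil_one h x hx)
    (fun A : Matrix (ι ⊕ κ) (ι ⊕ κ) (MonoidAlgebra (ZMod (p ^ n)) G) =>
      ∑ c, ind (ZMod (p ^ n)) (fun g => g = 1) (A c c))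
    (fun A B => ind_trace_mul_comm (ZMod (p ^ n)) (fun g : G => g = 1)
      (fun x y => mul_eq_one_comm) A B)
    (e := Matrix.fromBlocks E 0 0 0) (f := Matrix.fromBlocks 0 0 0 F)
    (by rw [Matrix.fromBlocks_multiply]; simp [hE])
    (by rw [Matrix.fromBlocks_multiply]; simp [hF])
    (x := Matrix.fromBlocks 0 (X.map l) 0 0) (y := Matrix.fromBlocks 0 0 (Y.map l) 0)
    (by
      rw [map_mul, hmap, hmap, hmap, Matrix.fromBlocks_multiply, hX, hY]
      simp [h1])
    (by
      rw [map_mul, hmap, hmap, hmap, Matrix.fromBlocks_multiply, hX, hY]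
      simp [h2])
  simp only [ind_eq_one, Fintype.sum_sum_type] at key
  simpa using key

variable (p G) in
/-- The trace at the identity of an idempotent lift to `(ℤ/pⁿ)[G]`. -/
noncomputable def trN (n : ℕ) (hn : 1 ≤ n) (E : IdemMat (MonoidAlgebra (ZMod p) G)) :
    ZMod (p ^ n) :=
  ∑ i, (((exists_idem_lift (dvd_pow_of_one_le hn) E.mat E.idem).choose) i i).coeff 1

theorem trN_eq {κ : Type*} [Fintype κ] [DecidableEq κ] {n : ℕ} (hn : 1 ≤ n)
    (E : IdemMat (MonoidAlgebra (ZMod p) G)) (F : Matrix κ κ (MonoidAlgebra (ZMod (p ^ n)) G))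
    (hF : F * F = F) (X : Matrix (Fin E.n) κ (MonoidAlgebra (ZMod p) G))
    (Y : Matrix κ (Fin E.n) (MonoidAlgebra (ZMod p) G))
    (h1 : X * Y = E.mat) (h2 : Y * X = red G κ (dvd_pow_of_one_le hn) F) :
    trN p G n hn E = ∑ k, (F k k).coeff 1 := by
  obtain ⟨h3, h4⟩ := (exists_idem_lift (dvd_pow_of_one_le hn) E.mat E.idem).choose_spec
  exact trace_mvn (dvd_pow_of_one_le hn) _ F h3 hF X Y (by rw [h4, h1]) h2

variable (p G) in
/-- The `p`-adic Kaplansky trace modulo `pⁿ` on `K₀(𝔽_p[G])`. -/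
noncomputable def trHom (n : ℕ) (hn : 1 ≤ n) : K0 (MonoidAlgebra (ZMod p) G) →+ ZMod (p ^ n) :=
  K0.lift (trN p G n hn)
    (by
      rintro E E' ⟨X, Y, h1, h2⟩
      obtain ⟨h3, h4⟩ := (exists_idem_lift (dvd_pow_of_one_le hn) E'.mat E'.idem).choose_spec
      rw [trN_eq hn E _ h3 X Y h1 (by rw [h4, h2])]
      rfl)
    (by
      intro E E'
      obtain ⟨R, hR, hRE⟩ := exists_idem_lift (dvd_pow_of_one_le (p := p) hn) E.mat E.idem
      obtain ⟨R', hR', hRE'⟩ := exists_idem_lift (dvd_pow_of_one_le (p := p) hn) E'.mat E'.idem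
      have e1 := trN_eq hn E R hR E.mat E.mat E.idem (by rw [hRE, E.idem])
      have e2 := trN_eq hn E' R' hR' E'.mat E'.mat E'.idem (by rw [hRE', E'.idem])
      have hb : red G (Fin E.n ⊕ Fin E'.n) (dvd_pow_of_one_le hn) (Matrix.fromBlocks R 0 0 R') =
          Matrix.fromBlocks E.mat 0 0 E'.mat := by
        rw [← hRE, ← hRE']
        simp only [red, RingHom.mapMatrix_apply]
        rw [Matrix.fromBlocks_map]
        simp
      have hbi : Matrix.fromBlocks E.mat 0 0 E'.mat * Matrix.fromBlocks E.mat 0 0 E'.mat =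
          Matrix.fromBlocks E.mat 0 0 E'.mat := by
        rw [Matrix.fromBlocks_multiply]
        simp [E.idem, E'.idem]
      have h6 : (Matrix.fromBlocks E.mat 0 0 E'.mat).submatrix finSumFinEquiv.symm id *
          (Matrix.fromBlocks E.mat 0 0 E'.mat).submatrix id finSumFinEquiv.symm =
          (Matrix.fromBlocks E.mat 0 0 E'.mat).submatrix finSumFinEquiv.symm
            finSumFinEquiv.symm := by
        rw [← Matrix.submatrix_mul _ _ _ id _ Function.bijective_id, hbi]
      have e3 := trN_eq hn (E.dsum E') (Matrix.fromBlocks R 0 0 R')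
        (by rw [Matrix.fromBlocks_multiply]; simp [hR, hR'])
        ((Matrix.fromBlocks E.mat 0 0 E'.mat).submatrix finSumFinEquiv.symm id)
        ((Matrix.fromBlocks E.mat 0 0 E'.mat).submatrix id finSumFinEquiv.symm)
        h6
        (by
          rw [hb]
          have h5 := Matrix.submatrix_mul_equiv (Matrix.fromBlocks E.mat 0 0 E'.mat)
            (Matrix.fromBlocks E.mat 0 0 E'.mat) id finSumFinEquiv.symm id
          rw [hbi, Matrix.submatrix_id_id] at h5
          exact h5)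
      rw [e1, e2, e3, Fintype.sum_sum_type]
      rfl)

theorem trHom_cls {n : ℕ} (hn : 1 ≤ n) (E : IdemMat (MonoidAlgebra (ZMod p) G)) :
    trHom p G n hn (K0.cls E) = trN p G n hn E :=
  K0.lift_cls _ _ _ E

end ZMod

end Pool.Agent.H.MP_a22eb7_al
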